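import Mathlib

/-! Unimodal maps, kneading sequences, cutting times, long-branched maps. -/

namespace Q93.UM

open Set

/-- `f` is a unimodal map of `[0,1]` with turning point `c`, normalised by
`c₂ < c < c₁` and `c₂ < c₃` where `cₙ = fⁿ(c)`.
(Only the values of `f` on `[0,1]` matter.) -/
structure Unimodal (f : ℝ → ℝ) (c : ℝ) : Prop where
  mem : c ∈ Ioo (0 : ℝ) 1
  maps : MapsTo f (Icc 0 1) (Icc 0 1)
  cont : ContinuousOn f (Icc 0 1)
  incr : StrictMonoOn f (Icc 0 c)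
  decr : StrictAntiOn f (Icc c 1)
  two_lt : f^[2] c < c
  lt_one : c < f^[1] c
  two_three : f^[2] c < f^[3] c

/-- The omega-limit set of the point `x` under `f`. -/
def omegaSet (f : ℝ → ℝ) (x : ℝ) : Set ℝ :=
  {y | ∀ ε > 0, ∀ N : ℕ, ∃ n ≥ N, |f^[n] x - y| < ε}

/-- The kneading sequence: `νₙ = 1` if `cₙ > c` and `νₙ = 0` otherwise (used for `n ≥ 1`, for
a non-periodic turning point). -/
noncomputable def nu (f : ℝ → ℝ) (c : ℝ) (n : ℕ) : ℕ :=
  open Classical in if c < f^[n] c then 1 else 0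

/-- `S` is the sequence of cutting times of `e`: `S 0 = 1` and
`S (k+1) = min {n > S k : e n ≠ e (n - S k)}` for every `k`. -/
structure IsCut (e : ℕ → ℕ) (S : ℕ → ℕ) : Prop where
  zero : S 0 = 1
  lt : ∀ k, S k < S (k + 1)
  ne : ∀ k, e (S (k + 1)) ≠ e (S (k + 1) - S k)
  eq : ∀ k n, S k < n → n < S (k + 1) → e n = e (n - S k)

/-- `f` is longbranched: the kneading map `Q` with `S k - S (k-1) = S (Q k)`, `k ≥ 1`,
is bounded. -/
def LongBranched (f : ℝ → ℝ) (c : ℝ) : Prop :=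
  ∃ S Q : ℕ → ℕ, IsCut (nu f c) S ∧ (∀ k, S (k + 1) - S k = S (Q (k + 1))) ∧
    ∃ N, ∀ k ≥ 1, Q k ≤ N

/-- The turning point is infinitely recurrent: `c ∈ ω(c)` and `c` is not periodic. -/
def InfRecurrent (f : ℝ → ℝ) (c : ℝ) : Prop :=
  c ∈ omegaSet f c ∧ ∀ n ≥ 1, f^[n] c ≠ c

/-- `f : K → K` is a bijection all of whose forward orbits are dense in `K`. -/
def MinimalHomeo (f : ℝ → ℝ) (K : Set ℝ) : Prop :=
  BijOn f K K ∧ ∀ x ∈ K, ∀ y ∈ K, ∀ ε > 0, ∃ n : ℕ, |f^[n] x - y| < ε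

/-- No interval with endpoints `x < y` in `K` is a homterval (an interval on which all iterates
of `f` are injective). -/
def NoHomtervalAt (f : ℝ → ℝ) (K : Set ℝ) : Prop :=
  ∀ x ∈ K, ∀ y ∈ K, x < y → ∃ n : ℕ, ¬ InjOn f^[n] (Icc x y)

end Q93.UM
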