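import Mathlib
import Pool.Agent.Q93.UM.Defs

/-! Combinatorics of kneading sequences with bounded gaps between cutting times. -/

namespace Q93.UM

/-- number of ones among `e 1, …, e r` -/
def PP (e : ℕ → ℕ) (r : ℕ) : ℕ := ∑ j ∈ Finset.range r, e (j + 1)

theorem PP_add (e : ℕ → ℕ) (a b : ℕ) :
    PP e (a + b) = PP e a + ∑ j ∈ Finset.range b, e (a + j + 1) := by
  unfold PP
  rw [Finset.sum_range_add]

/-- the admissibility property -/
def Adm (e : ℕ → ℕ) : Prop :=
  ∀ i r, 1 ≤ i → 1 ≤ r → (∀ j, 1 ≤ j → j < r → e (i + j) = e j) → e (i + r) ≠ e r →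
    PP e r % 2 = 1

section
variable {e : ℕ → ℕ} {S : ℕ → ℕ}

theorem IsCut.pos (h : IsCut e S) (k : ℕ) : 1 ≤ S k := by
  induction k with
  | zero => rw [h.zero]
  | succ k ih => have := h.lt k; omega

theorem IsCut.ge (h : IsCut e S) (k : ℕ) : k < S k := by
  induction k with
  | zero => rw [h.zero]; omega
  | succ k ih => have := h.lt k; omega

/-- every `n ≥ 1` lies in some `[S k, S (k+1))` -/
theorem IsCut.locate (h : IsCut e S) {n : ℕ} (hn : 1 ≤ n) :
    ∃ k, S k ≤ n ∧ n < S (k + 1) := by
  classical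
  have hex : ∃ k, n < S k := ⟨n, h.ge n⟩
  have h1 := Nat.find_spec hex
  have h0 : Nat.find hex ≠ 0 := by
    intro h0
    rw [h0, h.zero] at h1
    omega
  obtain ⟨k, hk⟩ := Nat.exists_eq_succ_of_ne_zero h0
  refine ⟨k, ?_, ?_⟩
  · have := Nat.find_min hex (m := k) (by omega)
    omega
  · rw [hk] at h1
    exact h1

theorem IsCut.parity (h : IsCut e S) (he : ∀ n, e n = 0 ∨ e n = 1) (h1 : e 1 = 1)
    (ha : Adm e) (k : ℕ) : PP e (S k) % 2 = 1 := by
  induction k with
  | zero => rw [h.zero]; simp [PP, h1]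
  | succ k ih =>
    obtain ⟨r, hr⟩ : ∃ r, S (k + 1) = S k + (r + 1) :=
      ⟨S (k + 1) - S k - 1, by have := h.lt k; omega⟩
    have e1 : ∀ j, 1 ≤ j → j < r + 1 → e (S k + j) = e j := by
      intro j hj hj'
      have := h.eq k (S k + j) (by omega) (by omega)
      rw [this]
      congr 1
      omega
    have e2 : e (S k + (r + 1)) ≠ e (r + 1) := by
      have := h.ne k
      rw [hr] at this
      simpa using this
    have h3 := ha (S k) (r + 1) (h.pos k) (by omega) e1 e2
    rw [hr, PP_add, Finset.sum_range_succ]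
    unfold PP at h3
    rw [Finset.sum_range_succ] at h3
    have e4 : ∑ j ∈ Finset.range r, e (S k + j + 1) = ∑ j ∈ Finset.range r, e (j + 1) := by
      refine Finset.sum_congr rfl fun j hj => ?_
      rw [Finset.mem_range] at hj
      exact e1 (j + 1) (by omega) (by omega)
    rw [e4]
    have e5 : e (S k + r + 1) ≠ e (r + 1) := e2
    generalize (∑ j ∈ Finset.range r, e (j + 1)) = A at h3 ⊢
    have h6 := he (S k + r + 1)
    have h7 := he (r + 1)
    generalize e (S k + r + 1) = u at e5 h6 ⊢
    generalize e (r + 1) = v at e5 h7 h3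
    omega

theorem IsCut.of_diff (h : IsCut e S) (he : ∀ n, e n = 0 ∨ e n = 1) (h1 : e 1 = 1)
    (ha : Adm e) {i r : ℕ} (hi : 1 ≤ i) (hr : 1 ≤ r)
    (h2 : ∀ j, 1 ≤ j → j < r → e (i + j) = e j) (h3 : e (i + r) ≠ e r) :
    ∃ k, S k = r := by
  by_contra hno
  push Not at hno
  obtain ⟨k, hk1, hk2⟩ := h.locate hr
  have hk3 : S k < r := lt_of_le_of_ne hk1 (hno k)
  obtain ⟨u, hu⟩ : ∃ u, r = S k + (u + 1) := ⟨r - S k - 1, by omega⟩
  have hp := h.parity he h1 ha k
  have e1 : ∀ j, 1 ≤ j → j ≤ u + 1 → e (S k + j) = e j := by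
    intro j hj hj'
    have := h.eq k (S k + j) (by omega) (by omega)
    rw [this]
    congr 1
    omega
  have hA := ha i r hi hr h2 h3
  have hB : PP e (u + 1) % 2 = 1 := by
    refine ha (i + S k) (u + 1) (by omega) (by omega) ?_ ?_
    · intro j hj hj'
      have := h2 (S k + j) (by omega) (by omega)
      rw [add_assoc, this]
      exact e1 j hj (by omega)
    · rw [add_assoc, ← hu, ← e1 (u + 1) (by omega) (by omega), ← hu]
      exact h3
  rw [hu, PP_add] at hA
  have e4 : ∑ j ∈ Finset.range (u + 1), e (S k + j + 1) =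
      ∑ j ∈ Finset.range (u + 1), e (j + 1) := by
    refine Finset.sum_congr rfl fun j hj => ?_
    rw [Finset.mem_range] at hj
    exact e1 (j + 1) (by omega) (by omega)
  rw [e4] at hA
  unfold PP at hA hB hp
  omega

/-- The next cutting time after a cutting time `m`, described by differences. -/
theorem IsCut.next (h : IsCut e S) {m r : ℕ} (hm : ∃ k, S k = m) (hr : 1 ≤ r)
    (h2 : ∀ j, 1 ≤ j → j < r → e (m + j) = e j) (h3 : e (m + r) ≠ e r) :
    ∃ k, S k = m + r := by
  obtain ⟨k, rfl⟩ := hm
  refine ⟨k + 1, ?_⟩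
  rcases lt_trichotomy (S (k + 1)) (S k + r) with h4 | h4 | h4
  · exfalso
    have h5 := h.lt k
    have := h2 (S (k + 1) - S k) (by omega) (by omega)
    apply h.ne k
    rw [← this]
    congr 1
    omega
  · exact h4
  · exfalso
    apply h3
    rw [h.eq k (S k + r) (by omega) h4]
    congr 1
    omega

/-- Copies of cutting times. -/
theorem IsCut.copy (h : IsCut e S) {m B : ℕ} {a b : ℕ} (hab : a ≤ b)
    (hm : ∃ k, S k = m + S a) (hmatch : ∀ j, 1 ≤ j → j ≤ B → e (m + j) = e j)
    (hb : S b ≤ B) : ∃ k, S k = m + S b := by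
  induction b with
  | zero =>
    have : a = 0 := by omega
    subst this
    exact hm
  | succ b ih =>
    rcases Nat.lt_or_ge b a with h1 | h1
    · have : a = b + 1 := by omega
      subst this
      exact hm
    · have hlt := h.lt b
      obtain ⟨k, hk⟩ := ih h1 (by omega)
      obtain ⟨r, hr⟩ : ∃ r, S (b + 1) = S b + r := ⟨S (b + 1) - S b, by omega⟩
      have := h.next (m := m + S b) (r := r) ⟨k, hk⟩ (by omega) ?_ ?_
      · rw [hr, ← add_assoc]
        exact this
      · intro j hj hj'
        have h5 := h.eq b (S b + j) (by omega) (by omega)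
        rw [add_assoc, hmatch (S b + j) (by omega) (by omega), h5]
        congr 1
        omega
      · have h5 := h.ne b
        rw [hr] at h5
        rw [add_assoc, hmatch (S b + r) (by omega) (by omega)]
        simpa using h5

/-- no cutting time is followed by a long match -/
theorem IsCut.not_match (h : IsCut e S) {B m : ℕ} (hB : ∀ k, S (k + 1) - S k ≤ B)
    (hmatch : ∀ j, 1 ≤ j → j ≤ B → e (m + j) = e j) : ∀ k, S k ≠ m := by
  rintro k rfl
  have h1 := h.lt k
  apply h.ne k
  have := hmatch (S (k + 1) - S k) (by omega) (hB k)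
  rw [← this]
  congr 1
  omega

theorem IsCut.start (h : IsCut e S) (he : ∀ n, e n = 0 ∨ e n = 1) (h1 : e 1 = 1)
    (ha : Adm e) {B m : ℕ} (hB : ∀ k, S (k + 1) - S k ≤ B) (hm : 1 ≤ m)
    (hmatch : ∀ j, 1 ≤ j → j ≤ B → e (m + j) = e j) :
    ∃ a, S a ≤ B ∧ ∃ k, S k = m + S a := by
  have hno := h.not_match hB hmatch
  obtain ⟨k, hk1, hk2⟩ := h.locate hm
  have hk3 : S k < m := lt_of_le_of_ne hk1 (hno k)
  have hB' := hB k
  obtain ⟨i, hi⟩ : ∃ i, m = S k + i := ⟨m - S k, by omega⟩
  obtain ⟨r, hr⟩ : ∃ r, S (k + 1) = m + r := ⟨S (k + 1) - m, by omega⟩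
  have h2 : ∀ j, 1 ≤ j → j < r → e (i + j) = e j := by
    intro j hj hj'
    have := h.eq k (m + j) (by omega) (by omega)
    rw [← hmatch j hj (by omega), this]
    congr 1
    omega
  have h3 : e (i + r) ≠ e r := by
    have := h.ne k
    rw [hr, hmatch r (by omega) (by omega)] at this
    intro h4
    apply this
    rw [← h4]
    congr 1
    omega
  obtain ⟨a, ha'⟩ := h.of_diff he h1 ha (by omega : 1 ≤ i) (by omega : 1 ≤ r) h2 h3
  exact ⟨a, by omega, k + 1, by omega⟩

/-- The main combinatorial lemma. -/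
theorem IsCut.comb (h : IsCut e S) (he : ∀ n, e n = 0 ∨ e n = 1) (h1 : e 1 = 1)
    (ha : Adm e) {B : ℕ} (hB : ∀ k, S (k + 1) - S k ≤ B) {n n' t : ℕ}
    (ht : B < t) (htn : t < n) (htn' : t < n')
    (hne : e n ≠ e n')
    (hpast : ∀ s, 1 ≤ s → s < t → e (n - s) = e (n' - s))
    (hn : ∀ j, 1 ≤ j → j ≤ B → e (n + j) = e j)
    (hn' : ∀ j, 1 ≤ j → j ≤ B → e (n' + j) = e j)
    (hnt : ∀ j, 1 ≤ j → j ≤ B → e (n - t + j) = e j) : False := by
  classical
  have hnt' : ∀ j, 1 ≤ j → j ≤ B → e (n' - t + j) = e j := by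
    intro j hj hj'
    have := hpast (t - j) (by omega) (by omega)
    rw [← hnt j hj hj']
    rw [show n' - t + j = n' - (t - j) by omega, show n - t + j = n - (t - j) by omega]
    exact this.symm
  obtain ⟨a, haB, hak⟩ := h.start he h1 ha hB (by omega : 1 ≤ n - t) hnt
  obtain ⟨a', haB', hak'⟩ := h.start he h1 ha hB (by omega : 1 ≤ n' - t) hnt'
  -- common cutting time
  obtain ⟨b, hb, hbk, hbk'⟩ : ∃ b, S b ≤ B ∧ (∃ k, S k = n - t + S b) ∧
      ∃ k, S k = n' - t + S b := by
    rcases le_total a a' with hle | hle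
    · exact ⟨a', haB', h.copy hle hak hnt haB', hak'⟩
    · exact ⟨a, haB, hak, h.copy hle hak' hnt' haB⟩
  have hSb := h.pos b
  have hex : ∃ s, 1 ≤ s ∧ s < t ∧ (∃ k, S k = n - s) ∧ ∃ k, S k = n' - s := by
    refine ⟨t - S b, by omega, by omega, ?_, ?_⟩
    · rw [show n - (t - S b) = n - t + S b by omega]
      exact hbk
    · rw [show n' - (t - S b) = n' - t + S b by omega]
      exact hbk'
  have hspec := Nat.find_spec hex
  have hmin := fun m (hm : m < Nat.find hex) => Nat.find_min hex hm
  set s := Nat.find hex with hs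
  obtain ⟨hs1, hst, hsk, hsk'⟩ := hspec
  -- the symbols following `n - s` and `n' - s` agree up to index `s - 1`
  have hagree : ∀ x, x < s → e (n - s + x) = e (n' - s + x) ∨ x = 0 := by
    intro x hx
    rcases Nat.eq_zero_or_pos x with h0 | h0
    · exact Or.inr h0
    · left
      rw [show n - s + x = n - (s - x) by omega, show n' - s + x = n' - (s - x) by omega]
      exact hpast _ (by omega) (by omega)
  -- no difference with the prefix before `s`
  have hpre : ∀ x, 1 ≤ x → x < s → e (n - s + x) = e x := by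
    intro x
    induction x using Nat.strong_induction_on with
    | _ x ih =>
      intro hx1 hxs
      by_contra hcon
      have hk1 := h.next (m := n - s) (r := x) hsk hx1
        (fun j hj hj' => ih j hj' hj (by omega)) hcon
      have hk2 := h.next (m := n' - s) (r := x) hsk' hx1
        (fun j hj hj' => by
          rcases hagree j (by omega) with h5 | h5
          · rw [← h5]; exact ih j hj' hj (by omega)
          · omega)
        (by
          rcases hagree x hxs with h5 | h5
          · rw [← h5]; exact hcon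
          · omega)
      apply hmin (s - x) (by omega)
      refine ⟨by omega, by omega, ?_, ?_⟩
      · rw [show n - (s - x) = n - s + x by omega]
        exact hk1
      · rw [show n' - (s - x) = n' - s + x by omega]
        exact hk2
  have hpre' : ∀ x, 1 ≤ x → x < s → e (n' - s + x) = e x := by
    intro x hx1 hxs
    rcases hagree x hxs with h5 | h5
    · rw [← h5]; exact hpre x hx1 hxs
    · omega
  have hcase : e n ≠ e s ∨ e n' ≠ e s := by
    by_contra hcon
    push Not at hcon
    exact hne (hcon.1.trans hcon.2.symm)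
  rcases hcase with h5 | h5
  · obtain ⟨k, hk⟩ := h.next (m := n - s) (r := s) hsk hs1 hpre
      (by rw [show n - s + s = n by omega]; exact h5)
    exact h.not_match hB hn k (by omega)
  · obtain ⟨k, hk⟩ := h.next (m := n' - s) (r := s) hsk' hs1 hpre'
      (by rw [show n' - s + s = n' by omega]; exact h5)
    exact h.not_match hB hn' k (by omega)

end

end Q93.UM
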