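import Mathlib

/-! Auxiliary facts: monotone bi-Lipschitz extension, irrational rotations. -/

namespace Q93.UM

open Set

/-- Extension of a bi-Lipschitz increasing correspondence to the whole line. -/
theorem mcshane {ι : Type*} (x y : ι → ℝ) {a b : ℝ} (hab : a ≤ b)
    (H : ∀ i j, x i ≤ x j → a * (x j - x i) ≤ y j - y i ∧ y j - y i ≤ b * (x j - x i)) :
    ∃ F : ℝ → ℝ, (∀ i, F (x i) = y i) ∧
      ∀ s t, s ≤ t → a * (t - s) ≤ F t - F s ∧ F t - F s ≤ b * (t - s) := by
  classical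
  set m : ℝ := (a + b) / 2 with hm
  set L : NNReal := ⟨(b - a) / 2, by linarith⟩ with hL
  have hLc : (L : ℝ) = (b - a) / 2 := rfl
  -- the function on the range
  have hwell : ∀ i j, x i = x j → y i = y j := by
    intro i j hij
    have h1 := H i j hij.le
    rw [hij] at h1
    simp only [sub_self, mul_zero] at h1
    linarith [h1.1, h1.2]
  let g : ℝ → ℝ := fun t => if h : ∃ i, x i = t then y h.choose - m * t else 0
  have hg : ∀ i, g (x i) = y i - m * x i := by
    intro i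
    have hex : ∃ j, x j = x i := ⟨i, rfl⟩
    simp only [g, dif_pos hex]
    rw [hwell _ _ hex.choose_spec]
  have hLip : LipschitzOnWith L g (range x) := by
    refine LipschitzOnWith.of_dist_le_mul ?_
    rintro _ ⟨i, rfl⟩ _ ⟨j, rfl⟩
    rw [hg, hg, Real.dist_eq, Real.dist_eq, hLc]
    rcases le_total (x i) (x j) with h | h
    · obtain ⟨h1, h2⟩ := H i j h
      rw [abs_sub_comm (x i), abs_of_nonneg (by linarith : 0 ≤ x j - x i), abs_le]
      constructor <;> nlinarith
    · obtain ⟨h1, h2⟩ := H j i h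
      rw [abs_of_nonneg (by linarith : 0 ≤ x i - x j), abs_le]
      constructor <;> nlinarith
  obtain ⟨G, hG, hGeq⟩ := hLip.extend_real
  refine ⟨fun t => G t + m * t, fun i => ?_, fun s t hst => ?_⟩
  · have := hGeq (mem_range_self i)
    simp only
    rw [← this, hg]
    ring
  · have h1 := hG.dist_le_mul t s
    rw [Real.dist_eq, Real.dist_eq, hLc, abs_of_nonneg (by linarith : 0 ≤ t - s), abs_le] at h1
    constructor <;> simp only <;> nlinarith [h1.1, h1.2]

theorem exists_fract_small {α : ℝ} (hα : Irrational α) {δ : ℝ} (hδ : 0 < δ) (hδ1 : δ ≤ 1) :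
    ∃ k : ℕ, 0 < Int.fract (k * α) ∧ Int.fract (k * α) < δ := by
  have hd : DenseRange (fun n : ℤ => n • (α : AddCircle (1 : ℝ))) := by
    rw [AddCircle.denseRange_zsmul_coe_iff]
    simpa using hα
  have hd' : DenseRange (fun n : ℕ => n • (α : AddCircle (1 : ℝ))) :=
    denseRange_zsmul_iff_nsmul.1 hd
  have hopen : IsOpen ((fun y : ℝ => (y : AddCircle (1 : ℝ))) '' Ioo 0 δ) :=
    QuotientAddGroup.isOpenMap_coe _ isOpen_Ioo
  obtain ⟨k, y, hy, hk⟩ := hd'.exists_mem_open hopen ⟨_, δ / 2, ⟨by linarith, by linarith⟩, rfl⟩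
  refine ⟨k, ?_⟩
  have h1 : ((k * α : ℝ) : AddCircle (1 : ℝ)) = (y : AddCircle (1 : ℝ)) := by
    rw [show ((k * α : ℝ) : AddCircle (1 : ℝ)) = k • (α : AddCircle (1 : ℝ)) by
      rw [← nsmul_eq_mul]; rfl]
    exact hk.symm
  have h2 : ∃ z : ℤ, (k * α : ℝ) = y + z := by
    rw [QuotientAddGroup.eq] at h1
    obtain ⟨z, hz⟩ := AddSubgroup.mem_zmultiples_iff.1 h1
    simp only [zsmul_eq_mul, mul_one] at hz
    exact ⟨-z, by push_cast; linarith⟩
  obtain ⟨z, hz⟩ := h2
  rw [hz, Int.fract_add_intCast, Int.fract_eq_self.2 ⟨hy.1.le, by linarith [hy.2]⟩]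
  exact hy

theorem syndetic {α : ℝ} (hα : Irrational α) {u δ : ℝ} (hu : 0 ≤ u) (hδ : 0 < δ)
    (huδ : u + δ ≤ 1) : ∃ N : ℕ, ∀ x : ℝ, ∃ j ≤ N, u ≤ Int.fract (x + j * α) ∧
      Int.fract (x + j * α) < u + δ := by
  obtain ⟨k, hk0, hk1⟩ := exists_fract_small hα hδ (by linarith)
  set β := Int.fract (k * α) with hβ
  refine ⟨⌈1 / β⌉₊ * k, fun x => ?_⟩
  set d := Int.fract (u - x) with hd
  have hd0 : 0 ≤ d := Int.fract_nonneg _
  have hd1 : d < 1 := Int.fract_lt_one _
  set i := ⌈d / β⌉₊ with hi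
  have hi1 : d ≤ i * β := by
    have := Nat.le_ceil (d / β)
    rwa [div_le_iff₀ hk0] at this
  have hi2 : i * β < d + β := by
    have := Nat.ceil_lt_add_one (div_nonneg hd0 hk0.le)
    rw [← hi] at this
    have h2 := mul_lt_mul_of_pos_right this hk0
    rw [add_mul, div_mul_cancel₀ _ hk0.ne', one_mul] at h2
    exact h2
  refine ⟨i * k, ?_, ?_⟩
  · apply Nat.mul_le_mul_right
    apply Nat.ceil_mono
    exact div_le_div_of_nonneg_right hd1.le hk0.le
  · have h1 : x + ((i * k : ℕ) : ℝ) * α = (u + (i * β - d)) +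
        ((i * ⌊(k * α : ℝ)⌋ - ⌊u - x⌋ : ℤ) : ℝ) := by
      have e1 : (k * α : ℝ) = ⌊(k * α : ℝ)⌋ + β := (Int.floor_add_fract _).symm
      have e2 : u - x = ⌊u - x⌋ + d := (Int.floor_add_fract _).symm
      push_cast
      have e3 : (i : ℝ) * k * α = i * (k * α) := by ring
      rw [e3]
      have e4 : (i : ℝ) * (k * α) = i * (⌊(k * α : ℝ)⌋ + β) := by rw [← e1]
      rw [e4]
      linarith
    rw [h1, Int.fract_add_intCast, Int.fract_eq_self.2 ⟨by linarith, by linarith⟩]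
    constructor <;> linarith

end Q93.UM
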