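import Mathlib
import Pool.Agent.Q93.UM.Rot

/-! The jump function of a two-sided orbit of an irrational rotation. -/

namespace Q93.UM

open Set Filter Topology

/-- weights -/
noncomputable def w (n : ℤ) : ℝ := (1 / 2) ^ n.natAbs / 8

/-- orbit of `0` under the rotation by `α` -/
noncomputable def a (α : ℝ) (n : ℤ) : ℝ := Int.fract (n * α)

/-- mass of the jumps in `(x,y]` -/
noncomputable def D (α x y : ℝ) : ℝ :=
  open Classical in ∑' n : ℤ, if x < a α n ∧ a α n ≤ y then w n else 0

theorem w_pos (n : ℤ) : 0 < w n := by unfold w; positivity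

theorem w_succ_le (n : ℤ) : w (n + 1) ≤ 2 * w n := by
  unfold w
  have h : n.natAbs ≤ (n + 1).natAbs + 1 := by omega
  have h2 : (1 / 2 : ℝ) ^ ((n + 1).natAbs + 1) ≤ (1 / 2) ^ n.natAbs :=
    pow_le_pow_of_le_one (by norm_num) (by norm_num) h
  rw [pow_succ] at h2
  linarith

theorem w_le_succ (n : ℤ) : w n ≤ 2 * w (n + 1) := by
  unfold w
  have h : (n + 1).natAbs ≤ n.natAbs + 1 := by omega
  have h2 : (1 / 2 : ℝ) ^ (n.natAbs + 1) ≤ (1 / 2) ^ (n + 1).natAbs :=
    pow_le_pow_of_le_one (by norm_num) (by norm_num) h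
  rw [pow_succ] at h2
  linarith

theorem summable_w_nat : Summable (fun n : ℕ => w n) := by
  have : (fun n : ℕ => w n) = fun n : ℕ => (1 / 2 : ℝ) ^ n / 8 := by
    funext n; simp [w]
  rw [this]
  exact (summable_geometric_of_lt_one (by norm_num) (by norm_num)).div_const 8

theorem summable_w_neg : Summable (fun n : ℕ => w (-(n + 1))) := by
  have : (fun n : ℕ => w (-(n + 1))) = fun n : ℕ => (1 / 2 : ℝ) ^ n * (1 / 2) / 8 := by
    funext n
    unfold w
    rw [show (-((n : ℤ) + 1)).natAbs = n + 1 by omega, pow_succ]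
  rw [this]
  exact ((summable_geometric_of_lt_one (by norm_num) (by norm_num)).mul_right _).div_const 8

theorem summable_w : Summable w := Summable.of_nat_of_neg_add_one summable_w_nat summable_w_neg

theorem tsum_w : ∑' n : ℤ, w n = 3 / 8 := by
  rw [tsum_of_nat_of_neg_add_one summable_w_nat summable_w_neg]
  have h1 : (fun n : ℕ => w n) = fun n : ℕ => (1 / 2 : ℝ) ^ n / 8 := by
    funext n; simp [w]
  have h2 : (fun n : ℕ => w (-(n + 1))) = fun n : ℕ => (1 / 2 : ℝ) ^ n * (1 / 2) / 8 := by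
    funext n
    unfold w
    rw [show (-((n : ℤ) + 1)).natAbs = n + 1 by omega, pow_succ]
  rw [h1, h2, tsum_div_const, tsum_div_const, tsum_mul_right,
    tsum_geometric_of_lt_one (by norm_num) (by norm_num)]
  norm_num

section
variable {α : ℝ}

theorem a_nonneg (n : ℤ) : 0 ≤ a α n := Int.fract_nonneg _
theorem a_lt_one (n : ℤ) : a α n < 1 := Int.fract_lt_one _

theorem summable_D (x y : ℝ) : open Classical in
    Summable (fun n : ℤ => if x < a α n ∧ a α n ≤ y then w n else 0) := by
  classical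
  refine Summable.of_nonneg_of_le (fun n => ?_) (fun n => ?_) summable_w
  · split_ifs
    · exact (w_pos n).le
    · exact le_rfl
  · split_ifs
    · exact le_rfl
    · exact (w_pos n).le

theorem D_nonneg (x y : ℝ) : 0 ≤ D α x y := by
  classical
  refine tsum_nonneg fun n => ?_
  split_ifs
  · exact (w_pos n).le
  · exact le_rfl

theorem D_le (x y : ℝ) : D α x y ≤ 3 / 8 := by
  classical
  rw [← tsum_w]
  refine (summable_D x y).tsum_le_tsum (fun n => ?_) summable_w
  split_ifs
  · exact le_rfl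
  · exact (w_pos n).le

theorem D_add {x y z : ℝ} (hxy : x ≤ y) (hyz : y ≤ z) : D α x z = D α x y + D α y z := by
  classical
  unfold D
  rw [← (summable_D x y).tsum_add (summable_D y z)]
  refine tsum_congr fun n => ?_
  rcases le_or_gt (a α n) y with h1 | h1
  · by_cases h2 : x < a α n
    · simp [h2, h1, h1.trans hyz, not_lt.2 h1]
    · simp [h2, not_lt.2 h1]
  · have h3 : x < a α n := hxy.trans_lt h1
    by_cases h2 : a α n ≤ z
    · simp [h1, h2, h3, not_le.2 h1]
    · simp [h2, not_le.2 h1]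

theorem D_self (x : ℝ) : D α x x = 0 := by
  classical
  unfold D
  have : (fun n : ℤ => if x < a α n ∧ a α n ≤ x then w n else 0) = fun _ => 0 := by
    funext n
    rw [if_neg]
    rintro ⟨h1, h2⟩
    linarith
  rw [this, tsum_zero]

theorem le_D {x y : ℝ} {n : ℤ} (h1 : x < a α n) (h2 : a α n ≤ y) : w n ≤ D α x y := by
  classical
  have := (summable_D (α := α) x y).le_tsum n (fun j _ => by
    split_ifs
    · exact (w_pos j).le
    · exact le_rfl)
  rw [if_pos ⟨h1, h2⟩] at this
  exact this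

theorem a_succ_of_lt (h0 : 0 < α) {n : ℤ} (h : a α n < 1 - α) : a α (n + 1) = a α n + α := by
  unfold a at *
  rw [Int.fract_eq_iff]
  refine ⟨by linarith [Int.fract_nonneg (n * α)], by linarith, ⌊(n * α : ℝ)⌋, ?_⟩
  push_cast
  linarith [Int.floor_add_fract (n * α : ℝ)]

theorem a_succ_of_ge (h1 : α < 1) {n : ℤ} (h : 1 - α ≤ a α n) :
    a α (n + 1) = a α n + α - 1 := by
  unfold a at *
  rw [Int.fract_eq_iff]
  refine ⟨by linarith, by linarith [Int.fract_lt_one (n * α)], ⌊(n * α : ℝ)⌋ + 1, ?_⟩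
  push_cast
  linarith [Int.floor_add_fract (n * α : ℝ)]

/-- the rotation in coordinates -/
noncomputable def rho (α x : ℝ) : ℝ := open Classical in if x < 1 - α then x + α else x + α - 1

theorem a_succ (h0 : 0 < α) (h1 : α < 1) (n : ℤ) : a α (n + 1) = rho α (a α n) := by
  unfold rho
  split_ifs with h
  · exact a_succ_of_lt h0 h
  · exact a_succ_of_ge h1 (not_lt.1 h)

theorem rho_mem_iff (h0 : 0 < α) (h1 : α < 1) {x y z : ℝ} (hx : 0 ≤ x) (hy : y < 1) (hz : 0 ≤ z)
    (hz1 : z < 1) (hxy : x ≤ y) (hs : y < 1 - α ∨ 1 - α ≤ x) :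
    (rho α x < rho α z ∧ rho α z ≤ rho α y) ↔ (x < z ∧ z ≤ y) := by
  unfold rho
  rcases hs with h | h
  · rw [if_pos (by linarith : x < 1 - α), if_pos h]
    split_ifs with h3
    · constructor <;> rintro ⟨h4, h5⟩ <;> constructor <;> linarith
    · constructor
      · rintro ⟨h4, h5⟩; exfalso; linarith
      · rintro ⟨h4, h5⟩; exfalso; linarith
  · rw [if_neg (by linarith : ¬ x < 1 - α), if_neg (by linarith : ¬ y < 1 - α)]
    split_ifs with h3
    · constructor
      · rintro ⟨h4, h5⟩; exfalso; linarith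
      · rintro ⟨h4, h5⟩; exfalso; linarith
    · constructor <;> rintro ⟨h4, h5⟩ <;> constructor <;> linarith

theorem D_rho (h0 : 0 < α) (h1 : α < 1) {x y : ℝ} (hx : 0 ≤ x) (hy : y < 1) (hxy : x ≤ y)
    (hs : y < 1 - α ∨ 1 - α ≤ x) :
    1 / 2 * D α x y ≤ D α (rho α x) (rho α y) ∧ D α (rho α x) (rho α y) ≤ 2 * D α x y := by
  classical
  have e1 : D α (rho α x) (rho α y) =
      ∑' n : ℤ, if x < a α n ∧ a α n ≤ y then w (n + 1) else 0 := by
    unfold D
    rw [← (Equiv.addRight (1 : ℤ)).tsum_eq]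
    refine tsum_congr fun n => ?_
    rw [Equiv.coe_addRight, a_succ h0 h1]
    simp only [rho_mem_iff h0 h1 hx hy (a_nonneg n) (a_lt_one n) hxy hs]
  have hsum : Summable (fun n : ℤ => if x < a α n ∧ a α n ≤ y then w (n + 1) else 0) := by
    refine Summable.of_nonneg_of_le (fun n => ?_) (fun n => ?_) (summable_w.mul_left 2)
    · split_ifs
      · exact (w_pos _).le
      · exact le_rfl
    · split_ifs
      · exact w_succ_le n
      · have := w_pos n
        linarith
  rw [e1]
  unfold D
  constructor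
  · rw [← tsum_mul_left]
    refine ((summable_D x y).mul_left _).tsum_le_tsum (fun n => ?_) hsum
    split_ifs
    · have := w_le_succ n
      linarith
    · simp
  · rw [← tsum_mul_left]
    refine hsum.tsum_le_tsum (fun n => ?_) ((summable_D x y).mul_left _)
    split_ifs
    · exact w_succ_le n
    · simp

theorem D_small (u : ℝ) {ε : ℝ} (hε : 0 < ε) :
    ∃ δ > 0, ∀ y, u ≤ y → y < u + δ → D α u y < ε := by
  classical
  have h : Tendsto (fun y => D α u y) (𝓝[≥] u) (𝓝 (∑' _n : ℤ, (0 : ℝ))) := by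
    unfold D
    refine tendsto_tsum_of_dominated_convergence (bound := w) summable_w (fun n => ?_)
      (Eventually.of_forall fun y n => ?_)
    · by_cases h1 : u < a α n
      · have h2 : ∀ᶠ y in 𝓝[≥] u, y < a α n :=
          mem_nhdsWithin_of_mem_nhds (Iio_mem_nhds h1)
        refine tendsto_const_nhds.congr' (h2.mono fun y hy => ?_)
        symm
        apply if_neg
        rintro ⟨_, h4⟩
        linarith
      · refine tendsto_const_nhds.congr' (Eventually.of_forall fun y => ?_)
        symm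
        apply if_neg
        rintro ⟨h4, _⟩
        exact h1 h4
    · split_ifs
      · rw [Real.norm_of_nonneg (w_pos n).le]
      · rw [norm_zero]
        exact (w_pos n).le
  rw [tsum_zero] at h
  have h2 := h.eventually (gt_mem_nhds hε)
  rw [eventually_nhdsWithin_iff, Metric.eventually_nhds_iff] at h2
  obtain ⟨δ, hδ, h3⟩ := h2
  refine ⟨δ, hδ, fun y h4 h5 => h3 ?_ h4⟩
  rw [Real.dist_eq, abs_lt]
  constructor <;> linarith

theorem a_zero : a α 0 = 0 := by simp [a]

theorem a_one (h0 : 0 < α) (h1 : α < 1) : a α 1 = α := by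
  unfold a
  rw [Int.cast_one, one_mul, Int.fract_eq_self.2 ⟨h0.le, h1⟩]

theorem a_neg_one (h0 : 0 < α) (h1 : α < 1) : a α (-1) = 1 - α := by
  unfold a
  rw [Int.fract_eq_iff]
  exact ⟨by linarith, by linarith, -1, by push_cast; ring⟩

theorem a_ne (hα : Irrational α) {n : ℤ} (hn : n ≠ -1) : a α n ≠ 1 - α := by
  intro h
  unfold a at h
  have h2 := Int.floor_add_fract (n * α : ℝ)
  rw [h] at h2
  have h3 : ((n + 1 : ℤ) : ℝ) * α = ((⌊(n * α : ℝ)⌋ + 1 : ℤ) : ℝ) := by
    push_cast
    linarith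
  have hn' : (n + 1 : ℤ) ≠ 0 := by omega
  exact (hα.intCast_mul hn').ne_int _ h3

end

end Q93.UM
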