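import Mathlib
import Pool.Agent.Q93.UM.Comb

/-! Basic facts on unimodal maps. -/

namespace Q93.UM

open Set

variable {f : ℝ → ℝ} {c : ℝ}

namespace Unimodal

theorem c_mem (h : Unimodal f c) : c ∈ Icc (0:ℝ) 1 := Ioo_subset_Icc_self h.mem

theorem iter_maps (h : Unimodal f c) (n : ℕ) : MapsTo f^[n] (Icc 0 1) (Icc 0 1) :=
  h.maps.iterate n

theorem iter_cont (h : Unimodal f c) (n : ℕ) : ContinuousOn f^[n] (Icc 0 1) := by
  induction n with
  | zero => exact continuousOn_id
  | succ n ih =>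
    rw [Function.iterate_succ']
    exact h.cont.comp ih (h.iter_maps n)

theorem cn_mem (h : Unimodal f c) (n : ℕ) : f^[n] c ∈ Icc (0:ℝ) 1 := h.iter_maps n h.c_mem

theorem f_lt_max (h : Unimodal f c) {x : ℝ} (hx : x ∈ Icc (0:ℝ) 1) (hne : x ≠ c) :
    f x < f c := by
  rcases lt_or_gt_of_ne hne with h1 | h1
  · exact h.incr ⟨hx.1, h1.le⟩ ⟨h.mem.1.le, le_rfl⟩ h1
  · exact h.decr ⟨le_rfl, h.mem.2.le⟩ ⟨h1.le, hx.2⟩ h1

theorem nu_cases (n : ℕ) : nu f c n = 0 ∨ nu f c n = 1 := by
  unfold nu
  split <;> simp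

theorem nu_eq_one {n : ℕ} : nu f c n = 1 ↔ c < f^[n] c := by
  unfold nu
  split <;> simp_all

theorem nu_eq_iff {n m : ℕ} : nu f c n = nu f c m ↔ (c < f^[n] c ↔ c < f^[m] c) := by
  unfold nu
  by_cases h1 : c < f^[n] c <;> by_cases h2 : c < f^[m] c <;> simp [h1, h2]

theorem nu_one (h : Unimodal f c) : nu f c 1 = 1 := nu_eq_one.2 h.lt_one

/-- admissibility of the kneading sequence -/
theorem adm (h : Unimodal f c) (hne : ∀ n ≥ 1, f^[n] c ≠ c) : Adm (nu f c) := by
  intro i r hi hr h2 h3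
  have hc : ∀ n, f^[n] c ∈ Icc (0:ℝ) 1 := h.cn_mem
  have step : ∀ n, f^[n + 1] c = f (f^[n] c) := fun n => Function.iterate_succ_apply' f n c
  have key : ∀ m, m < r → (PP (nu f c) m % 2 = 0 → f^[i + 1 + m] c < f^[1 + m] c) ∧
      (PP (nu f c) m % 2 = 1 → f^[1 + m] c < f^[i + 1 + m] c) := by
    intro m
    induction m with
    | zero =>
      intro _
      refine ⟨fun _ => ?_, fun h0 => by simp [PP] at h0⟩
      have := h.f_lt_max (hc i) (hne i hi)
      rw [add_zero, step i]
      simpa using this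
    | succ m ih =>
      intro hm
      have ih' := ih (by omega)
      have hsame := h2 (m + 1) (by omega) hm
      rw [nu_eq_iff] at hsame
      have hPP : PP (nu f c) (m + 1) = PP (nu f c) m + nu f c (m + 1) := by
        unfold PP
        rw [Finset.sum_range_succ]
      have e1 : f^[i + 1 + (m + 1)] c = f (f^[i + 1 + m] c) := by
        rw [← step]; rfl
      have e2 : f^[1 + (m + 1)] c = f (f^[1 + m] c) := by
        rw [← step]; rfl
      have e3 : i + (m + 1) = i + 1 + m := by omega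
      have e4 : m + 1 = 1 + m := by omega
      rw [e3] at hsame
      rw [e1, e2]
      have n1 := hne (i + 1 + m) (by omega)
      have n2 := hne (1 + m) (by omega)
      have hc1 := hc (i + 1 + m)
      have hc2 := hc (1 + m)
      rcases nu_cases (f := f) (c := c) (m + 1) with h5 | h5
      · have h6 : ¬ c < f^[1 + m] c := by
          rw [← e4]
          intro h7
          rw [← nu_eq_one] at h7
          omega
        have h7 : ¬ c < f^[i + 1 + m] c := by
          rw [hsame, e4]; exact h6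
        rw [hPP, h5, add_zero]
        refine ⟨fun h8 => ?_, fun h8 => ?_⟩
        · exact h.incr ⟨hc1.1, not_lt.1 h7⟩ ⟨hc2.1, not_lt.1 h6⟩ (ih'.1 h8)
        · exact h.incr ⟨hc2.1, not_lt.1 h6⟩ ⟨hc1.1, not_lt.1 h7⟩ (ih'.2 h8)
      · have h6 : c < f^[1 + m] c := by
          rw [← e4]
          exact nu_eq_one.1 h5
        have h7 : c < f^[i + 1 + m] c := by
          rw [hsame, e4]; exact h6
        rw [hPP, h5]
        refine ⟨fun h8 => ?_, fun h8 => ?_⟩
        · exact h.decr ⟨h6.le, hc2.2⟩ ⟨h7.le, hc1.2⟩ (ih'.2 (by omega))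
        · exact h.decr ⟨h7.le, hc1.2⟩ ⟨h6.le, hc2.2⟩ (ih'.1 (by omega))
  obtain ⟨m, rfl⟩ : ∃ m, r = m + 1 := ⟨r - 1, by omega⟩
  have hk := key m (by omega)
  have hPP : PP (nu f c) (m + 1) = PP (nu f c) m + nu f c (m + 1) := by
    unfold PP
    rw [Finset.sum_range_succ]
  have e3 : i + (m + 1) = i + 1 + m := by omega
  have e4 : m + 1 = 1 + m := by omega
  have h3' : ¬ (c < f^[i + 1 + m] c ↔ c < f^[1 + m] c) := by
    rw [← nu_eq_iff, ← e3, ← e4]
    exact h3
  rw [hPP]
  rcases Nat.mod_two_eq_zero_or_one (PP (nu f c) m) with h5 | h5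
  · have h6 := hk.1 h5
    have h7 : c < f^[1 + m] c := by
      by_contra hcon
      apply h3'
      constructor
      · intro h8; exact absurd (h8.trans h6) hcon
      · intro h8; exact absurd h8 hcon
    have h8 : nu f c (m + 1) = 1 := by
      rw [e4]; exact nu_eq_one.2 h7
    omega
  · have h6 := hk.2 h5
    have h7 : ¬ c < f^[1 + m] c := by
      intro hcon
      apply h3'
      constructor
      · intro h8; exact hcon
      · intro h8; exact h8.trans h6
    have h8 : nu f c (m + 1) = 0 := by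
      rcases nu_cases (f := f) (c := c) (m + 1) with h9 | h9
      · exact h9
      · exfalso
        rw [nu_eq_one, e4] at h9
        exact h7 h9
    omega

/-- If the orbits of `x < y` never lie strictly on different sides of `c`, then every iterate is
injective on `[x,y]`. -/
theorem hom (h : Unimodal f c) {x y : ℝ} (hx : x ∈ Icc (0:ℝ) 1) (hy : y ∈ Icc (0:ℝ) 1)
    (hxy : x < y)
    (hs : ∀ n : ℕ, ¬ ((f^[n] x < c ∧ c < f^[n] y) ∨ (f^[n] y < c ∧ c < f^[n] x))) (n : ℕ) :
    InjOn f^[n] (Icc x y) := by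
  have key : ∀ n : ℕ, MapsTo f^[n] (Icc x y) (uIcc (f^[n] x) (f^[n] y)) ∧
      InjOn f^[n] (Icc x y) := by
    intro n
    induction n with
    | zero =>
      refine ⟨fun z hz => ?_, fun _ _ _ _ h => h⟩
      simp only [Function.iterate_zero, id_eq]
      rw [uIcc_of_le hxy.le]
      exact hz
    | succ n ih =>
      have hxn := h.iter_maps n hx
      have hyn := h.iter_maps n hy
      have hn := hs n
      push Not at hn
      rw [Function.iterate_succ', Function.comp_apply, Function.comp_apply]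
      have hside : uIcc (f^[n] x) (f^[n] y) ⊆ Icc 0 c ∨ uIcc (f^[n] x) (f^[n] y) ⊆ Icc c 1 := by
        rcases lt_trichotomy (f^[n] x) c with h1 | h1 | h1
        · left
          have h2 := hn.1 h1
          exact uIcc_subset_Icc ⟨hxn.1, h1.le⟩ ⟨hyn.1, h2⟩
        · rcases le_total (f^[n] y) c with h2 | h2
          · left
            exact uIcc_subset_Icc ⟨hxn.1, h1.le⟩ ⟨hyn.1, h2⟩
          · right
            exact uIcc_subset_Icc ⟨h1.ge, hxn.2⟩ ⟨h2, hyn.2⟩
        · right
          have h2 : c ≤ f^[n] y := by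
            by_contra hcon
            exact absurd (hn.2 (not_le.1 hcon)) (not_le.2 h1)
          exact uIcc_subset_Icc ⟨h1.le, hxn.2⟩ ⟨h2, hyn.2⟩
      rcases hside with h3 | h3
      · refine ⟨fun z hz => ?_, ?_⟩
        · have hz' := ih.1 hz
          exact (h.incr.monotoneOn.mono h3).mapsTo_uIcc hz'
        · exact (h.incr.injOn.mono h3).comp ih.2 ih.1
      · refine ⟨fun z hz => ?_, ?_⟩
        · have hz' := ih.1 hz
          exact (h.decr.antitoneOn.mono h3).mapsTo_uIcc hz'
        · exact (h.decr.injOn.mono h3).comp ih.2 ih.1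
  exact (key n).2

end Unimodal

theorem omegaSet_subset (h : Unimodal f c) : omegaSet f c ⊆ Icc 0 1 := by
  intro y hy
  have : y ∈ closure (Icc (0:ℝ) 1) := by
    rw [Metric.mem_closure_iff]
    intro ε hε
    obtain ⟨n, _, hn⟩ := hy ε hε 0
    refine ⟨f^[n] c, h.cn_mem n, ?_⟩
    rw [Real.dist_eq, abs_sub_comm]
    exact hn
  rwa [closure_Icc] at this

theorem isClosed_omegaSet : IsClosed (omegaSet f c) := by
  rw [← isSeqClosed_iff_isClosed]
  intro u y hu hy ε hε N
  rw [Metric.tendsto_atTop] at hy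
  obtain ⟨k, hk⟩ := hy (ε / 2) (half_pos hε)
  obtain ⟨n, hn, hn'⟩ := hu k (ε / 2) (half_pos hε) N
  refine ⟨n, hn, ?_⟩
  have := hk k le_rfl
  rw [Real.dist_eq] at this
  have h3 : f^[n] c - y = (f^[n] c - u k) + (u k - y) := by ring
  rw [h3]
  have := abs_add_le (f^[n] c - u k) (u k - y)
  linarith

theorem isCompact_omegaSet (h : Unimodal f c) : IsCompact (omegaSet f c) :=
  isCompact_Icc.of_isClosed_subset isClosed_omegaSet (omegaSet_subset h)

end Q93.UM
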