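import Mathlib
import Pool.Agent.Q93.UM.Uni

/-! Uniform recurrence of the turning point gives minimality on `ω(c)`. -/

namespace Q93.UM

open Set

theorem minimal_of_UR {f : ℝ → ℝ} {c : ℝ} (h : Unimodal f c)
    (hUR : ∀ ε > 0, ∃ N : ℕ, ∀ n : ℕ, ∃ j ≤ N, |f^[n + j] c - c| < ε)
    (hinj : InjOn f (omegaSet f c)) :
    c ∈ omegaSet f c ∧ MinimalHomeo f (omegaSet f c) := by
  set K := omegaSet f c with hKdef
  have hKsub : K ⊆ Icc 0 1 := omegaSet_subset h
  have hK : IsCompact K := isCompact_omegaSet h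
  have hcK : c ∈ K := by
    intro ε hε N
    obtain ⟨M, hM⟩ := hUR ε hε
    obtain ⟨j, _, hj⟩ := hM N
    exact ⟨N + j, by omega, hj⟩
  have hmaps : MapsTo f K K := by
    intro y hy ε hε N
    have hc : ContinuousWithinAt f (Icc 0 1) y := h.cont y (hKsub hy)
    rw [Metric.continuousWithinAt_iff] at hc
    obtain ⟨δ, hδ, h3⟩ := hc ε hε
    obtain ⟨n, hn, hn'⟩ := hy δ hδ N
    refine ⟨n + 1, by omega, ?_⟩
    rw [Function.iterate_succ_apply', ← Real.dist_eq]
    exact h3 (h.cn_mem n) (by rw [Real.dist_eq]; exact hn')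
  have hcnK : ∀ n : ℕ, f^[n] c ∈ K := fun n => hmaps.iterate n hcK
  have hsurj : SurjOn f K K := by
    have hcomp : IsCompact (f '' K) := hK.image_of_continuousOn (h.cont.mono hKsub)
    intro y hy
    rw [← hcomp.isClosed.closure_eq, Metric.mem_closure_iff]
    intro ε hε
    obtain ⟨n, hn, hn'⟩ := hy ε hε 1
    refine ⟨f^[n] c, ⟨f^[n - 1] c, hcnK _, ?_⟩, ?_⟩
    · rw [← Function.iterate_succ_apply' f, show (n - 1).succ = n by omega]
    · rw [Real.dist_eq, abs_sub_comm]
      exact hn'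
  refine ⟨hcK, ⟨⟨hmaps, hinj, hsurj⟩, ?_⟩⟩
  intro x hx y hy ε hε
  obtain ⟨m, _, hm⟩ := hy (ε / 2) (half_pos hε) 0
  have hc : ContinuousWithinAt f^[m] (Icc 0 1) c := h.iter_cont m c h.c_mem
  rw [Metric.continuousWithinAt_iff] at hc
  obtain ⟨δ, hδ, h3⟩ := hc (ε / 2) (half_pos hε)
  obtain ⟨N, hN⟩ := hUR (δ / 2) (half_pos hδ)
  -- the orbit of `x` also visits a neighbourhood of `c`
  obtain ⟨j, hj⟩ : ∃ j : ℕ, |f^[j] x - c| < δ := by
    -- a finite collection of iterates is simultaneously continuous at `x`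
    have hfin : ∀ M : ℕ, ∃ η > 0, ∀ z ∈ Icc (0:ℝ) 1, |z - x| < η →
        ∀ j ≤ M, |f^[j] z - f^[j] x| < δ / 2 := by
      intro M
      induction M with
      | zero =>
        refine ⟨δ / 2, half_pos hδ, fun z _ hz j hj => ?_⟩
        obtain rfl : j = 0 := by omega
        exact hz
      | succ M ih =>
        obtain ⟨η, hη, h5⟩ := ih
        have hc' : ContinuousWithinAt f^[M + 1] (Icc 0 1) x := h.iter_cont _ x (hKsub hx)
        rw [Metric.continuousWithinAt_iff] at hc'
        obtain ⟨η', hη', h6⟩ := hc' (δ / 2) (half_pos hδ)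
        refine ⟨min η η', lt_min hη hη', fun z hz hzx j hj => ?_⟩
        rcases Nat.lt_or_ge j (M + 1) with h7 | h7
        · exact h5 z hz (hzx.trans_le (min_le_left _ _)) j (by omega)
        · obtain rfl : j = M + 1 := by omega
          have := h6 hz (by rw [Real.dist_eq]; exact hzx.trans_le (min_le_right _ _))
          rwa [Real.dist_eq] at this
    obtain ⟨η, hη, h5⟩ := hfin N
    obtain ⟨n, _, hn⟩ := hx η hη 0
    obtain ⟨j, hj, hj'⟩ := hN n
    refine ⟨j, ?_⟩
    have h6 := h5 _ (h.cn_mem n) hn j hj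
    rw [add_comm, Function.iterate_add_apply] at hj'
    rw [abs_lt] at *
    constructor <;> linarith [h6.1, h6.2, hj'.1, hj'.2]
  refine ⟨m + j, ?_⟩
  rw [Function.iterate_add_apply]
  have h4 := h3 (h.iter_maps j (hKsub hx)) (by rw [Real.dist_eq]; exact hj)
  rw [Real.dist_eq] at h4
  rw [abs_lt] at *
  constructor <;> linarith [h4.1, h4.2, hm.1, hm.2]

end Q93.UM
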