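import Mathlib
import Pool.Agent.Q93.UM.MinUR
import Pool.Agent.Q93.UM.Den

/-! A longbranched unimodal map with homtervals whose restriction to `ω(c)` is a minimal
homeomorphism. -/

namespace Q93.UM

open Set

section
variable {α : ℝ}

/-- block positions -/
noncomputable def θ (α : ℝ) (j : ℕ) : ℝ := a α ((j : ℤ) - 1)

/-- points -/
noncomputable def p (α : ℝ) (j : ℕ) : ℝ := D α 0 (θ α j)

theorem θ_nonneg (j : ℕ) : 0 ≤ θ α j := a_nonneg _
theorem θ_lt_one (j : ℕ) : θ α j < 1 := a_lt_one _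
theorem θ_zero (h0 : 0 < α) (h1 : α < 1) : θ α 0 = 1 - α := by
  unfold θ
  rw [show ((0 : ℕ) : ℤ) - 1 = -1 by norm_num]
  exact a_neg_one h0 h1
theorem θ_one : θ α 1 = 0 := by
  unfold θ
  rw [show ((1 : ℕ) : ℤ) - 1 = 0 by norm_num]
  exact a_zero
theorem θ_succ (h0 : 0 < α) (h1 : α < 1) (j : ℕ) : θ α (j + 1) = rho α (θ α j) := by
  unfold θ
  rw [← a_succ h0 h1]
  congr 1
  push_cast
  ring
theorem θ_succ_lt (h0 : 0 < α) {j : ℕ} (h : θ α j < 1 - α) : θ α (j + 1) = θ α j + α := by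
  unfold θ at *
  rw [← a_succ_of_lt h0 h]
  congr 1
  push_cast
  ring
theorem θ_succ_ge (h1 : α < 1) {j : ℕ} (h : 1 - α ≤ θ α j) : θ α (j + 1) = θ α j + α - 1 := by
  unfold θ at *
  rw [← a_succ_of_ge h1 h]
  congr 1
  push_cast
  ring
theorem θ_ne (hα : Irrational α) {j : ℕ} (hj : 1 ≤ j) : θ α j ≠ 1 - α :=
  a_ne hα (by omega)

theorem p_nonneg (j : ℕ) : 0 ≤ p α j := D_nonneg _ _
theorem p_le (j : ℕ) : p α j ≤ 3 / 8 := D_le _ _
theorem p_sub {i j : ℕ} (h : θ α i ≤ θ α j) : p α j - p α i = D α (θ α i) (θ α j) := by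
  unfold p
  rw [D_add (θ_nonneg i) h]
  ring
theorem p_mono {i j : ℕ} (h : θ α i ≤ θ α j) : p α i ≤ p α j := by
  have := p_sub h
  have := D_nonneg (α := α) (θ α i) (θ α j)
  linarith
theorem p_lt {i j : ℕ} (h : θ α i < θ α j) : p α i < p α j := by
  have h1 := p_sub h.le
  have h2 : w ((j : ℤ) - 1) ≤ D α (θ α i) (θ α j) := le_D h le_rfl
  have := w_pos ((j : ℤ) - 1)
  linarith
theorem θ_le_of_p_le {i j : ℕ} (h : p α i ≤ p α j) : θ α i ≤ θ α j := by
  by_contra hcon
  exact absurd (p_lt (not_le.1 hcon)) (not_lt.2 h)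

theorem w_one : w 1 = 1 / 16 := by norm_num [w]
theorem w_neg_one : w (-1) = 1 / 16 := by norm_num [w]

theorem p_one : p α 1 = 0 := by
  unfold p
  rw [θ_one, D_self]

/-- points on the left of the discontinuity -/
theorem p_lt_c (h0 : 0 < α) (h1 : α < 1) {j : ℕ} (h : θ α j < 1 - α) :
    p α j ≤ p α 0 - 1 / 16 := by
  have hz := θ_zero h0 h1
  have h2 := p_sub (α := α) (i := j) (j := 0) (by rw [hz]; exact h.le)
  have h3 : w (-1) ≤ D α (θ α j) (θ α 0) :=
    le_D (by rw [a_neg_one h0 h1]; exact h) (by rw [a_neg_one h0 h1, hz])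
  rw [w_neg_one] at h3
  linarith

theorem c_le_p (h0 : 0 < α) (h1 : α < 1) {j : ℕ} (h : 1 - α ≤ θ α j) : p α 0 ≤ p α j :=
  p_mono (by rw [θ_zero h0 h1]; exact h)

theorem c_ge (h0 : 0 < α) (h1 : α < 1) : 1 / 16 ≤ p α 0 := by
  have := p_lt_c h0 h1 (j := 1) (by rw [θ_one]; linarith)
  rw [p_one] at this
  linarith

theorem c_lt_p (hα : Irrational α) (h0 : 0 < α) (h1 : α < 1) {j : ℕ} (hj : 1 ≤ j)
    (h : 1 - α ≤ θ α j) : p α 0 < p α j :=
  p_lt (by rw [θ_zero h0 h1]; exact lt_of_le_of_ne h (θ_ne hα hj).symm)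

theorem p_succ_of_lt (h0 : 0 < α) {j : ℕ} (h : θ α j < 1 - α) : D α 0 α ≤ p α (j + 1) := by
  unfold p
  rw [θ_succ_lt h0 h]
  have h2 := D_add (α := α) (x := 0) (y := α) (z := θ α j + α) h0.le
    (by linarith [θ_nonneg (α := α) j])
  linarith [D_nonneg (α := α) α (θ α j + α)]

theorem p_succ_of_ge (h0 : 0 < α) (h1 : α < 1) {j : ℕ} (h : 1 - α ≤ θ α j) :
    p α (j + 1) ≤ D α 0 α - 1 / 16 := by
  unfold p
  have h2 := θ_succ_ge h1 h
  have h3 := θ_nonneg (α := α) (j + 1)
  have h4 := θ_lt_one (α := α) j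
  rw [D_add (y := θ α (j + 1)) (z := α) h3 (by linarith)]
  have h5 : w 1 ≤ D α (θ α (j + 1)) α :=
    le_D (by rw [a_one h0 h1]; linarith) (by rw [a_one h0 h1])
  rw [w_one] at h5
  linarith

/-- slopes of the base rotation -/
theorem slope (h0 : 0 < α) (h1 : α < 1) {i j : ℕ} (h : θ α i ≤ θ α j)
    (hs : θ α j < 1 - α ∨ 1 - α ≤ θ α i) :
    1 / 2 * (p α j - p α i) ≤ p α (j + 1) - p α (i + 1) ∧
      p α (j + 1) - p α (i + 1) ≤ 2 * (p α j - p α i) := by
  have hle : θ α (i + 1) ≤ θ α (j + 1) := by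
    rcases hs with h2 | h2
    · rw [θ_succ_lt h0 h2, θ_succ_lt h0 (lt_of_le_of_lt h h2)]
      linarith
    · rw [θ_succ_ge h1 h2, θ_succ_ge h1 (h2.trans h)]
      linarith
  rw [p_sub h, p_sub hle, θ_succ h0 h1 i, θ_succ h0 h1 j]
  exact D_rho h0 h1 (θ_nonneg i) (θ_lt_one j) h hs

/-- the left branch -/
theorem exists_left (h0 : 0 < α) (h1 : α < 1) : ∃ F : ℝ → ℝ, F (p α 0) = 1 ∧
    (∀ j, θ α j < 1 - α → F (p α j) = p α (j + 1)) ∧
    ∀ s t, s ≤ t → 1 / 4 * (t - s) ≤ F t - F s ∧ F t - F s ≤ 16 * (t - s) := by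
  let x : Option {j : ℕ // θ α j < 1 - α} → ℝ := fun o => o.elim (p α 0) (fun j => p α j)
  let y : Option {j : ℕ // θ α j < 1 - α} → ℝ := fun o => o.elim 1 (fun j => p α (j + 1))
  obtain ⟨F, hF, hF2⟩ := mcshane x y (a := 1 / 4) (b := 16) (by norm_num) (by
    intro i j hij
    rcases i with _ | i <;> rcases j with _ | j
    · simp [x, y]
    · exfalso
      simp only [x, Option.elim] at hij
      have := p_lt_c h0 h1 j.2
      linarith
    · simp only [x, y, Option.elim]
      have h2 := p_lt_c h0 h1 i.2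
      have h3 := p_le (α := α) (i + 1)
      have h4 := p_nonneg (α := α) (i + 1)
      have h5 := p_le (α := α) 0
      have h6 := p_nonneg (α := α) i
      constructor <;> linarith
    · simp only [x, y, Option.elim] at hij ⊢
      have h2 := slope h0 h1 (θ_le_of_p_le hij) (Or.inl j.2)
      constructor <;> linarith [h2.1, h2.2])
  exact ⟨F, hF none, fun j hj => hF (some ⟨j, hj⟩), hF2⟩

/-- the right branch (with the opposite sign) -/
theorem exists_right (h0 : 0 < α) (h1 : α < 1) : ∃ F : ℝ → ℝ,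
    (∀ j, 1 - α ≤ θ α j → F (p α j) = -(1 + p α 0 - p α j)) ∧
    (∀ j, 1 - α ≤ θ α j → F (1 + p α 0 - p α j) = -p α (j + 1)) ∧
    ∀ s t, s ≤ t → 1 / 4 * (t - s) ≤ F t - F s ∧ F t - F s ≤ 16 * (t - s) := by
  let x : {j : ℕ // 1 - α ≤ θ α j} ⊕ {j : ℕ // 1 - α ≤ θ α j} → ℝ :=
    Sum.elim (fun j => p α j) (fun j => 1 + p α 0 - p α j)
  let y : {j : ℕ // 1 - α ≤ θ α j} ⊕ {j : ℕ // 1 - α ≤ θ α j} → ℝ :=
    Sum.elim (fun j => -(1 + p α 0 - p α j)) (fun j => -p α (j + 1))
  obtain ⟨F, hF, hF2⟩ := mcshane x y (a := 1 / 4) (b := 16) (by norm_num) (by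
    have hc := c_ge h0 h1
    intro i j hij
    rcases i with i | i <;> rcases j with j | j
    · simp only [x, y, Sum.elim_inl] at hij ⊢
      constructor <;> linarith
    · simp only [x, y, Sum.elim_inl, Sum.elim_inr] at hij ⊢
      have h2 := c_le_p h0 h1 i.2
      have h3 := c_le_p h0 h1 j.2
      have h4 := p_le (α := α) i
      have h5 := p_le (α := α) j
      have h6 := p_le (α := α) (j + 1)
      have h7 := p_nonneg (α := α) (j + 1)
      constructor <;> linarith
    · exfalso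
      simp only [x, Sum.elim_inl, Sum.elim_inr] at hij
      have h4 := p_le (α := α) i
      have h5 := p_le (α := α) j
      linarith
    · simp only [x, y, Sum.elim_inr] at hij ⊢
      have h2 := slope h0 h1 (θ_le_of_p_le (by linarith : p α j ≤ p α i)) (Or.inr j.2)
      constructor <;> linarith [h2.1, h2.2])
  exact ⟨F, fun j hj => hF (Sum.inl ⟨j, hj⟩), fun j hj => hF (Sum.inr ⟨j, hj⟩), hF2⟩

/-- The tower over the rotation as a map. -/
structure Tower (α : ℝ) (f : ℝ → ℝ) : Prop where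
  left : ∀ j, θ α j < 1 - α → f (p α j) = p α (j + 1)
  right : ∀ j, 1 - α ≤ θ α j → f (p α j) = 1 + p α 0 - p α j
  top : ∀ j, 1 - α ≤ θ α j → f (1 + p α 0 - p α j) = p α (j + 1)
  cont : Continuous f
  incr : StrictMonoOn f (Iic (p α 0))
  decr : StrictAntiOn f (Ici (p α 0))

theorem lip_cont {F : ℝ → ℝ}
    (hF : ∀ s t, s ≤ t → 1 / 4 * (t - s) ≤ F t - F s ∧ F t - F s ≤ 16 * (t - s)) :
    Continuous F ∧ StrictMono F := by
  constructor
  · refine LipschitzWith.continuous (K := 16) (LipschitzWith.of_dist_le_mul fun s t => ?_)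
    rw [Real.dist_eq, Real.dist_eq]
    push_cast
    rcases le_total s t with h | h
    · obtain ⟨h1, h2⟩ := hF s t h
      rw [abs_sub_comm s, abs_of_nonneg (by linarith : 0 ≤ t - s), abs_sub_comm,
        abs_of_nonneg (by linarith)]
      linarith
    · obtain ⟨h1, h2⟩ := hF t s h
      rw [abs_of_nonneg (by linarith : 0 ≤ s - t), abs_of_nonneg (by linarith)]
      linarith
  · intro s t hst
    have := (hF s t hst.le).1
    linarith

theorem exists_tower (h0 : 0 < α) (h1 : α < 1) : ∃ f : ℝ → ℝ, Tower α f := by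
  classical
  obtain ⟨L, hL1, hL2, hL3⟩ := exists_left h0 h1
  obtain ⟨R, hR1, hR2, hR3⟩ := exists_right h0 h1
  obtain ⟨hLc, hLm⟩ := lip_cont hL3
  obtain ⟨hRc, hRm⟩ := lip_cont hR3
  have hR0 : R (p α 0) = -1 := by
    rw [hR1 0 (by rw [θ_zero h0 h1])]
    ring
  have hc := c_ge h0 h1
  refine ⟨fun t => if t ≤ p α 0 then L t else -R t, ?_, ?_, ?_, ?_, ?_, ?_⟩
  · intro j hj
    have h2 := p_lt_c h0 h1 hj
    rw [if_pos (by linarith), hL2 j hj]
  · intro j hj
    have h2 := c_le_p h0 h1 hj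
    split_ifs with h3
    · have : p α j = p α 0 := le_antisymm h3 h2
      rw [this, hL1]
      ring
    · rw [hR1 j hj]
      ring
  · intro j hj
    have h2 := p_le (α := α) j
    have h3 := p_le (α := α) 0
    rw [if_neg (by linarith), hR2 j hj]
    ring
  · refine Continuous.if_le hLc hRc.neg continuous_id continuous_const ?_
    intro t ht
    rw [ht, hL1, hR0]
    ring
  · intro s hs t ht hst
    rw [mem_Iic] at hs ht
    simp only
    rw [if_pos hs, if_pos ht]
    exact hLm hst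
  · intro s hs t ht hst
    simp only
    have hlt : p α 0 < t := lt_of_le_of_lt hs hst
    rw [if_neg (not_le.2 hlt)]
    split_ifs with h3
    · have : s = p α 0 := le_antisymm h3 hs
      rw [this, hL1]
      have := hRm hlt
      rw [hR0] at this
      linarith
    · have := hRm hst
      linarith

/-- next state of the tower -/
noncomputable def nxt (α : ℝ) (s : ℕ × Bool) : ℕ × Bool :=
  open Classical in
  if s.2 = false ∧ 1 - α ≤ θ α s.1 then (s.1, true) else (s.1 + 1, false)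

/-- position of a state -/
noncomputable def pos (α : ℝ) (s : ℕ × Bool) : ℝ :=
  if s.2 = true then 1 + p α 0 - p α s.1 else p α s.1

/-- valid states -/
def Valid (α : ℝ) (s : ℕ × Bool) : Prop := s.2 = true → 1 - α ≤ θ α s.1

theorem valid_nxt (s : ℕ × Bool) : Valid α (nxt α s) := by
  unfold Valid nxt
  split_ifs with h
  · intro _
    exact h.2
  · intro h2
    simp at h2

theorem Tower.step {f : ℝ → ℝ} (hf : Tower α f) {s : ℕ × Bool} (hs : Valid α s) :
    f (pos α s) = pos α (nxt α s) := by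
  obtain ⟨j, b⟩ := s
  cases b with
  | false =>
    by_cases h : 1 - α ≤ θ α j
    · simp only [pos, nxt, h, and_self, if_true, Bool.false_eq_true, if_false]
      exact hf.right j h
    · simp only [pos, nxt, h, and_false, if_false, Bool.false_eq_true]
      exact hf.left j (not_le.1 h)
  | true =>
    simp only [pos, nxt, Bool.true_eq_false, false_and, if_false, if_true, Bool.false_eq_true]
    exact hf.top j (hs rfl)

theorem valid_iter (n : ℕ) {s : ℕ × Bool} (hs : Valid α s) : Valid α ((nxt α)^[n] s) := by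
  cases n with
  | zero => exact hs
  | succ n => rw [Function.iterate_succ_apply']; exact valid_nxt _

theorem Tower.iter {f : ℝ → ℝ} (hf : Tower α f) {s : ℕ × Bool} (hs : Valid α s) (n : ℕ) :
    f^[n] (pos α s) = pos α ((nxt α)^[n] s) := by
  induction n with
  | zero => rfl
  | succ n ih =>
    rw [Function.iterate_succ_apply', ih, Function.iterate_succ_apply', hf.step (valid_iter n hs)]

theorem valid_zero : Valid α (0, false) := fun h => by simp at h

theorem Tower.orbit {f : ℝ → ℝ} (hf : Tower α f) (n : ℕ) :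
    f^[n] (p α 0) = pos α ((nxt α)^[n] (0, false)) := hf.iter valid_zero n

/-- time at which block `j` starts -/
noncomputable def τ (α : ℝ) : ℕ → ℕ
  | 0 => 0
  | j + 1 => τ α j + (open Classical in if 1 - α ≤ θ α j then 2 else 1)

theorem nxt_τ (j : ℕ) : (nxt α)^[τ α j] (0, false) = (j, false) := by
  classical
  induction j with
  | zero => rfl
  | succ j ih =>
    unfold τ
    rw [add_comm, Function.iterate_add_apply, ih]
    split_ifs with h
    · simp [nxt, h]
    · simp [nxt, h]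

theorem nxt_τ_succ {j : ℕ} (h : 1 - α ≤ θ α j) :
    (nxt α)^[τ α j + 1] (0, false) = (j, true) := by
  rw [Function.iterate_succ_apply', nxt_τ]
  simp [nxt, h]

/-- every state `(i, false)` reaches `(i+k, false)` within `2k` steps -/
theorem reach (i k : ℕ) : ∃ m ≤ 2 * k, (nxt α)^[m] (i, false) = (i + k, false) := by
  induction k with
  | zero => exact ⟨0, by omega, rfl⟩
  | succ k ih =>
    obtain ⟨m, hm, hm'⟩ := ih
    by_cases h : 1 - α ≤ θ α (i + k)
    · refine ⟨2 + m, by omega, ?_⟩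
      rw [Function.iterate_add_apply, hm']
      simp [nxt, h, add_assoc]
    · refine ⟨1 + m, by omega, ?_⟩
      rw [Function.iterate_add_apply, hm']
      simp [nxt, h, add_assoc]

end

end Q93.UM
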