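import Mathlib
import Pool.Agent.Q93.UM.Ex

/-! The example: unimodality, kneading data, minimality. -/

namespace Q93.UM

open Set

section
variable {α : ℝ} {f : ℝ → ℝ}

theorem nxt_zero (h0 : 0 < α) (h1 : α < 1) : nxt α (0, false) = (0, true) := by
  simp [nxt, θ_zero h0 h1]

theorem nxt_one (h0 : 0 < α) (h1 : α < 1) : (nxt α)^[2] (0, false) = (1, false) := by
  rw [Function.iterate_succ_apply', Function.iterate_one, nxt_zero h0 h1]
  simp [nxt]

theorem θ_one_lt (h1 : α < 1) : θ α 1 < 1 - α := by rw [θ_one]; linarith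

theorem Tower.unimodal (hf : Tower α f) (h0 : 0 < α) (h1 : α < 1) : Unimodal f (p α 0) := by
  have hc := c_ge h0 h1
  have hc2 := p_le (α := α) 0
  have hz : 1 - α ≤ θ α 0 := by rw [θ_zero h0 h1]
  have fc : f (p α 0) = 1 := by
    rw [hf.right 0 hz]; ring
  have f1 : f 1 = 0 := by
    have := hf.top 0 hz
    rw [show 1 + p α 0 - p α 0 = 1 by ring, p_one] at this
    exact this
  have f0 : f 0 = p α 2 := by
    have := hf.left 1 (θ_one_lt h1)
    rwa [p_one] at this
  have hp2 : 1 / 16 ≤ p α 2 := by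
    have h2 := p_succ_of_lt h0 (θ_one_lt h1)
    have h3 : w 1 ≤ D α 0 α := le_D (by rw [a_one h0 h1]; exact h0) (by rw [a_one h0 h1])
    rw [w_one] at h3
    linarith
  have hcm : p α 0 ∈ Ioo (0:ℝ) 1 := ⟨by linarith, by linarith⟩
  refine ⟨hcm, ?_, hf.cont.continuousOn, hf.incr.mono Icc_subset_Iic_self,
    hf.decr.mono Icc_subset_Ici_self, ?_, ?_, ?_⟩
  · intro t ht
    rcases le_total t (p α 0) with h2 | h2
    · have h3 : f 0 ≤ f t := hf.incr.monotoneOn (by rw [mem_Iic]; exact hcm.1.le) h2 ht.1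
      have h4 : f t ≤ f (p α 0) := hf.incr.monotoneOn h2 (mem_Iic.2 le_rfl) h2
      rw [f0] at h3
      rw [fc] at h4
      exact ⟨by linarith, h4⟩
    · have h3 : f 1 ≤ f t := hf.decr.antitoneOn h2 (mem_Ici.2 hcm.2.le) ht.2
      have h4 : f t ≤ f (p α 0) := hf.decr.antitoneOn (mem_Ici.2 le_rfl) h2 h2
      rw [f1] at h3
      rw [fc] at h4
      exact ⟨h3, h4⟩
  · simp only [Function.iterate_succ_apply', Function.iterate_zero, id_eq]
    rw [fc, f1]
    exact hcm.1
  · simp only [Function.iterate_one]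
    rw [fc]
    exact hcm.2
  · simp only [Function.iterate_succ_apply', Function.iterate_zero, id_eq]
    rw [fc, f1, f0]
    linarith

/-- side of a state -/
theorem pos_side (hα : Irrational α) (h0 : 0 < α) (h1 : α < 1) {s : ℕ × Bool}
    (hs : Valid α s) (hs0 : s ≠ (0, false)) :
    (s.2 = true ∨ 1 - α ≤ θ α s.1 → p α 0 < pos α s) ∧
    (s.2 = false ∧ θ α s.1 < 1 - α → pos α s < p α 0) := by
  obtain ⟨j, b⟩ := s
  cases b with
  | false =>
    simp only [pos, Bool.false_eq_true, if_false, false_or, true_and]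
    refine ⟨fun h => ?_, fun h => ?_⟩
    · refine c_lt_p hα h0 h1 ?_ h
      by_contra hcon
      apply hs0
      have : j = 0 := by omega
      rw [this]
    · have := p_lt_c h0 h1 h
      linarith
  | true =>
    simp only [pos, if_true, true_or, forall_true_left, Bool.true_eq_false, false_and,
      IsEmpty.forall_iff, and_true]
    have := p_le (α := α) j
    have := p_le (α := α) 0
    linarith

theorem nxt_ne_zero (s : ℕ × Bool) : nxt α s ≠ (0, false) := by
  unfold nxt
  split_ifs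
  · intro h
    have := congrArg Prod.snd h
    simp at this
  · intro h
    have := congrArg Prod.fst h
    simp at this

theorem iter_ne_zero {n : ℕ} (hn : 1 ≤ n) (s : ℕ × Bool) : (nxt α)^[n] s ≠ (0, false) := by
  obtain ⟨m, rfl⟩ : ∃ m, n = m + 1 := ⟨n - 1, by omega⟩
  rw [Function.iterate_succ_apply']
  exact nxt_ne_zero _

theorem Tower.ne (hf : Tower α f) (hα : Irrational α) (h0 : 0 < α) (h1 : α < 1) :
    ∀ n ≥ 1, f^[n] (p α 0) ≠ p α 0 := by
  intro n hn
  rw [hf.orbit]
  have hside := pos_side hα h0 h1 (valid_iter n valid_zero) (iter_ne_zero hn _)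
  by_cases h : ((nxt α)^[n] (0, false)).2 = true ∨ 1 - α ≤ θ α ((nxt α)^[n] (0, false)).1
  · exact (hside.1 h).ne'
  · rw [not_or, Bool.not_eq_true, not_le] at h
    exact (hside.2 h).ne

/-- symbols of the kneading sequence -/
theorem Tower.nu_false (hf : Tower α f) (hα : Irrational α) (h0 : 0 < α) (h1 : α < 1)
    {n j : ℕ} (hn : 1 ≤ n) (h : (nxt α)^[n] (0, false) = (j, false)) (hj : θ α j < 1 - α) :
    nu f (p α 0) n = 0 := by
  have hside := pos_side hα h0 h1 (valid_iter (α := α) n valid_zero) (iter_ne_zero hn _)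
  rw [← hf.orbit, h] at hside
  have h3 := hside.2 ⟨rfl, hj⟩
  rcases Unimodal.nu_cases (f := f) (c := p α 0) n with h4 | h4
  · exact h4
  · rw [Unimodal.nu_eq_one] at h4
    linarith

theorem Tower.nu_true (hf : Tower α f) (hα : Irrational α) (h0 : 0 < α) (h1 : α < 1)
    {n j : ℕ} (hn : 1 ≤ n)
    (h : (nxt α)^[n] (0, false) = (j, true) ∨
      ((nxt α)^[n] (0, false) = (j, false) ∧ 1 - α ≤ θ α j)) :
    nu f (p α 0) n = 1 := by
  have hside := pos_side hα h0 h1 (valid_iter (α := α) n valid_zero) (iter_ne_zero hn _)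
  rw [← hf.orbit] at hside
  rw [Unimodal.nu_eq_one]
  apply hside.1
  rcases h with h | ⟨h, h2⟩
  · rw [h]; exact Or.inl rfl
  · rw [h]; exact Or.inr h2

theorem τ_succ_ge {j : ℕ} (h : 1 - α ≤ θ α j) : τ α (j + 1) = τ α j + 2 := by
  simp [τ, h]

theorem τ_succ_lt {j : ℕ} (h : θ α j < 1 - α) : τ α (j + 1) = τ α j + 1 := by
  simp [τ, not_le.2 h]

theorem τ_one (h0 : 0 < α) (h1 : α < 1) : τ α 1 = 2 := by
  rw [τ_succ_ge (by rw [θ_zero h0 h1])]
  rfl

theorem two_le_τ (h0 : 0 < α) (h1 : α < 1) (j : ℕ) : 2 ≤ τ α (j + 1) := by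
  induction j with
  | zero => rw [zero_add, τ_one h0 h1]
  | succ j ih =>
    rcases lt_or_ge (θ α (j + 1)) (1 - α) with h | h
    · rw [τ_succ_lt h]; omega
    · rw [τ_succ_ge h]; omega

theorem Tower.nu_one' (hf : Tower α f) (h0 : 0 < α) (h1 : α < 1) : nu f (p α 0) 1 = 1 :=
  (hf.unimodal h0 h1).nu_one

theorem Tower.nu_two (hf : Tower α f) (hα : Irrational α) (h0 : 0 < α) (h1 : α < 1) :
    nu f (p α 0) 2 = 0 :=
  hf.nu_false hα h0 h1 (by omega) (nxt_one h0 h1) (θ_one_lt h1)

theorem Tower.longBranched (hf : Tower α f) (hα : Irrational α) (h0 : 0 < α) (h1 : α < 1) :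
    LongBranched f (p α 0) := by
  classical
  refine ⟨fun k => τ α (k + 1) - 1, fun k => if 1 - α ≤ θ α k then 1 else 0, ?_, ?_, 1, ?_⟩
  · refine ⟨?_, ?_, ?_, ?_⟩
    · simp only [zero_add]; rw [τ_one h0 h1]
    · intro k
      have := two_le_τ h0 h1 k
      rcases lt_or_ge (θ α (k + 1)) (1 - α) with h | h
      · rw [τ_succ_lt h]; omega
      · rw [τ_succ_ge h]; omega
    · intro k
      have h2 := two_le_τ h0 h1 k
      rcases lt_or_ge (θ α (k + 1)) (1 - α) with h | h
      · rw [τ_succ_lt h, show τ α (k + 1) + 1 - 1 = τ α (k + 1) by omega,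
          show τ α (k + 1) - (τ α (k + 1) - 1) = 1 by omega, hf.nu_one' h0 h1,
          hf.nu_false hα h0 h1 (by omega) (nxt_τ (k + 1)) h]
        norm_num
      · rw [τ_succ_ge h, show τ α (k + 1) + 2 - 1 = τ α (k + 1) + 1 by omega,
          show τ α (k + 1) + 1 - (τ α (k + 1) - 1) = 2 by omega, hf.nu_two hα h0 h1,
          hf.nu_true hα h0 h1 (by omega) (Or.inl (nxt_τ_succ h))]
        norm_num
    · intro k n hn1 hn2
      have h2 := two_le_τ h0 h1 k
      rcases lt_or_ge (θ α (k + 1)) (1 - α) with h | h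
      · rw [τ_succ_lt h] at hn2; omega
      · rw [τ_succ_ge h] at hn2
        obtain rfl : n = τ α (k + 1) := by omega
        rw [show τ α (k + 1) - (τ α (k + 1) - 1) = 1 by omega, hf.nu_one' h0 h1]
        exact hf.nu_true hα h0 h1 (by omega) (Or.inr ⟨nxt_τ (k + 1), h⟩)
  · intro k
    have h2 := two_le_τ h0 h1 k
    show τ α (k + 1 + 1) - 1 - (τ α (k + 1) - 1) =
      τ α ((if 1 - α ≤ θ α (k + 1) then 1 else 0) + 1) - 1
    rcases lt_or_ge (θ α (k + 1)) (1 - α) with h | h
    · rw [τ_succ_lt h, if_neg (not_le.2 h), zero_add, τ_one h0 h1]; omega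
    · rw [τ_succ_ge h, if_pos h, τ_succ_lt (θ_one_lt h1), τ_one h0 h1]; omega
  · intro k _
    show (if 1 - α ≤ θ α k then 1 else 0) ≤ 1
    split_ifs <;> omega

/-- uniform recurrence -/
theorem Tower.UR (hf : Tower α f) (hα : Irrational α) (h0 : 0 < α) (h1 : α < 1) :
    ∀ ε > 0, ∃ N : ℕ, ∀ n : ℕ, ∃ j ≤ N, |f^[n + j] (p α 0) - p α 0| < ε := by
  intro ε hε
  obtain ⟨δ, hδ, hsmall⟩ := D_small (α := α) (1 - α) hε
  obtain ⟨N, hN⟩ := syndetic hα (u := 1 - α) (δ := min δ α) (by linarith)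
    (lt_min hδ h0) (by linarith [min_le_right δ α])
  -- from a state `(i,false)`
  have key : ∀ i : ℕ, ∃ m ≤ 2 * N, |pos α ((nxt α)^[m] (i, false)) - p α 0| < ε := by
    intro i
    obtain ⟨k, hk, hk1, hk2⟩ := hN (((i : ℤ) - 1 : ℤ) * α)
    have e1 : Int.fract ((((i : ℤ) - 1 : ℤ) : ℝ) * α + k * α) = θ α (i + k) := by
      unfold θ a
      congr 1
      push_cast
      ring
    rw [e1] at hk1 hk2
    obtain ⟨m, hm, hm'⟩ := reach (α := α) i k
    refine ⟨m, by omega, ?_⟩
    rw [hm']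
    simp only [pos, Bool.false_eq_true, if_false]
    have h3 := p_sub (α := α) (i := 0) (j := i + k) (by rw [θ_zero h0 h1]; exact hk1)
    rw [h3, θ_zero h0 h1, abs_of_nonneg (D_nonneg _ _)]
    exact hsmall _ hk1 (by linarith [min_le_left δ α])
  refine ⟨2 * N + 1, fun n => ?_⟩
  have horb : ∀ j, f^[n + j] (p α 0) = pos α ((nxt α)^[j] ((nxt α)^[n] (0, false))) := by
    intro j
    rw [hf.orbit, ← Function.iterate_add_apply, add_comm]
  rcases hs : (nxt α)^[n] (0, false) with ⟨i, b⟩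
  cases b with
  | false =>
    obtain ⟨m, hm, hm'⟩ := key i
    refine ⟨m, by omega, ?_⟩
    rw [horb, hs]
    exact hm'
  | true =>
    obtain ⟨m, hm, hm'⟩ := key (i + 1)
    refine ⟨m + 1, by omega, ?_⟩
    rw [horb, hs, Function.iterate_succ_apply]
    have : nxt α (i, true) = (i + 1, false) := by simp [nxt]
    rw [this]
    exact hm'

/-- injectivity on the omega-limit set -/
theorem Tower.inj (hf : Tower α f) (h0 : 0 < α) (h1 : α < 1) :
    InjOn f (omegaSet f (p α 0)) := by
  have hU := hf.unimodal h0 h1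
  -- a closed condition satisfied by the orbit
  have hcl : IsClosed {y : ℝ | (y ≤ p α 0 - 1 / 16 ∧ D α 0 α ≤ f y ∧ f y ≤ 3 / 8) ∨
      (p α 0 ≤ y ∧ (5 / 8 ≤ f y ∨ f y ≤ D α 0 α - 1 / 16))} := by
    have hc := hf.cont
    have c1 : IsClosed {y : ℝ | y ≤ p α 0 - 1 / 16} := isClosed_le continuous_id continuous_const
    have c2 : IsClosed {y : ℝ | D α 0 α ≤ f y} := isClosed_le continuous_const hc
    have c3 : IsClosed {y : ℝ | f y ≤ 3 / 8} := isClosed_le hc continuous_const
    have c4 : IsClosed {y : ℝ | p α 0 ≤ y} := isClosed_le continuous_const continuous_id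
    have c5 : IsClosed {y : ℝ | 5 / 8 ≤ f y} := isClosed_le continuous_const hc
    have c6 : IsClosed {y : ℝ | f y ≤ D α 0 α - 1 / 16} := isClosed_le hc continuous_const
    exact (c1.inter (c2.inter c3)).union (c4.inter (c5.union c6))
  have hmem : ∀ y ∈ omegaSet f (p α 0), (y ≤ p α 0 - 1 / 16 ∧ D α 0 α ≤ f y ∧ f y ≤ 3 / 8) ∨
      (p α 0 ≤ y ∧ (5 / 8 ≤ f y ∨ f y ≤ D α 0 α - 1 / 16)) := by
    intro y hy
    have hy' : y ∈ closure {y : ℝ | (y ≤ p α 0 - 1 / 16 ∧ D α 0 α ≤ f y ∧ f y ≤ 3 / 8) ∨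
      (p α 0 ≤ y ∧ (5 / 8 ≤ f y ∨ f y ≤ D α 0 α - 1 / 16))} := by
      rw [Metric.mem_closure_iff]
      intro ε hε
      obtain ⟨n, _, hn⟩ := hy ε hε 0
      refine ⟨f^[n] (p α 0), ?_, by rw [Real.dist_eq, abs_sub_comm]; exact hn⟩
      have hv := valid_iter (α := α) n valid_zero
      rw [Set.mem_ofPred_eq, hf.orbit]
      rw [hf.step hv]
      rcases hs : (nxt α)^[n] (0, false) with ⟨j, b⟩
      rw [hs] at hv
      cases b with
      | false =>
        by_cases h : 1 - α ≤ θ α j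
        · right
          simp only [pos, nxt, h, and_self, if_true, Bool.false_eq_true, if_false]
          refine ⟨c_le_p h0 h1 h, Or.inl ?_⟩
          have := p_le (α := α) j
          have := p_nonneg (α := α) 0
          linarith
        · left
          simp only [pos, nxt, h, and_false, if_false, Bool.false_eq_true]
          exact ⟨p_lt_c h0 h1 (not_le.1 h), p_succ_of_lt h0 (not_le.1 h), p_le _⟩
      | true =>
        right
        have h := hv rfl
        simp only [pos, nxt, Bool.true_eq_false, false_and, if_false, if_true,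
          Bool.false_eq_true]
        refine ⟨?_, Or.inr (p_succ_of_ge h0 h1 h)⟩
        have := p_le (α := α) j
        linarith
    rw [hcl.closure_eq] at hy'
    exact hy'
  have aux : ∀ x ∈ omegaSet f (p α 0), ∀ y ∈ omegaSet f (p α 0), f x = f y → ¬ x < y := by
    intro x hx y hy hxy hlt
    have hxm := hmem x hx
    have hym := hmem y hy
    have hxI := omegaSet_subset hU hx
    have hyI := omegaSet_subset hU hy
    rcases le_total y (p α 0) with h | h
    · have := hf.incr (mem_Iic.2 (hlt.le.trans h)) (mem_Iic.2 h) hlt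
      linarith
    · rcases le_total (p α 0) x with h' | h'
      · have := hf.decr (mem_Ici.2 h') (mem_Ici.2 h) hlt
        linarith
      · rcases hxm with hxm | hxm
        · rcases hym with hym | hym
          · linarith [hym.1]
          · rcases hym.2 with h5 | h5 <;> linarith [hxm.2.1, hxm.2.2]
        · have hxe : x = p α 0 := le_antisymm h' hxm.1
          have := hf.decr (mem_Ici.2 hxm.1) (mem_Ici.2 h) hlt
          linarith
  intro x hx y hy hxy
  by_contra hne
  rcases lt_or_gt_of_ne hne with h | h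
  · exact aux x hx y hy hxy h
  · exact aux y hy x hx hxy.symm h

theorem Tower.main (hf : Tower α f) (hα : Irrational α) (h0 : 0 < α) (h1 : α < 1) :
    Unimodal f (p α 0) ∧ InfRecurrent f (p α 0) ∧ LongBranched f (p α 0) ∧
      MinimalHomeo f (omegaSet f (p α 0)) := by
  have hU := hf.unimodal h0 h1
  obtain ⟨h2, h3⟩ := minimal_of_UR hU (hf.UR hα h0 h1) (hf.inj h0 h1)
  exact ⟨hU, ⟨h2, hf.ne hα h0 h1⟩, hf.longBranched hα h0 h1, h3⟩

end

theorem exists_example : ∃ f : ℝ → ℝ, ∃ c : ℝ, Unimodal f c ∧ InfRecurrent f c ∧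
    LongBranched f c ∧ MinimalHomeo f (omegaSet f c) := by
  have hα : Irrational (Real.sqrt 2 - 1) := by
    simpa using irrational_sqrt_two.sub_intCast 1
  have hs : Real.sqrt 2 < 2 := by
    rw [Real.sqrt_lt' (by norm_num)]; norm_num
  have hs' : 1 < Real.sqrt 2 := Real.one_lt_sqrt_two
  obtain ⟨f, hf⟩ := exists_tower (α := Real.sqrt 2 - 1) (by linarith) (by linarith)
  exact ⟨f, _, hf.main hα (by linarith) (by linarith)⟩

end Q93.UM
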