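import Mathlib
import Pool.Agent.Q93.UM.Uni

/-! Expanding unimodal maps have no homtervals. -/

namespace Q93.UM

open Set

theorem no_homterval_of_expanding {f : ℝ → ℝ} {c : ℝ} (h : Unimodal f c) {l : ℝ} (hl : 1 < l)
    (hexp : ∀ x y, (x ∈ Icc 0 c ∧ y ∈ Icc 0 c) ∨ (x ∈ Icc c 1 ∧ y ∈ Icc c 1) →
      l * |x - y| ≤ |f x - f y|) : NoHomtervalAt f (omegaSet f c) := by
  intro x hx y hy hxy
  by_contra hcon
  push Not at hcon
  have hxI := omegaSet_subset h hx
  have hyI := omegaSet_subset h hy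
  have hsub : Icc x y ⊆ Icc 0 1 := Icc_subset_Icc hxI.1 hyI.2
  have hc0 := h.mem.1
  have hc1 := h.mem.2
  -- the endpoints stay on the same side
  have aux : ∀ n : ℕ, ∀ u ∈ Icc x y, ∀ v ∈ Icc x y, f^[n] u < c → c < f^[n] v → False := by
    intro n u hu v hv h1 h2
    have huI := h.iter_maps n (hsub hu)
    have hvI := h.iter_maps n (hsub hv)
    have f1 : f (f^[n] u) < f c := h.incr ⟨huI.1, h1.le⟩ ⟨hc0.le, le_rfl⟩ h1
    have f2 : f (f^[n] v) < f c := h.decr ⟨le_rfl, hc1.le⟩ ⟨h2.le, hvI.2⟩ h2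
    set L := (max (f (f^[n] u)) (f (f^[n] v)) + f c) / 2 with hL
    have hL1 : f (f^[n] u) < L := by
      have := le_max_left (f (f^[n] u)) (f (f^[n] v))
      linarith
    have hL2 : f (f^[n] v) < L := by
      have := le_max_right (f (f^[n] u)) (f (f^[n] v))
      linarith
    have hL3 : L < f c := by
      have := max_lt f1 f2
      linarith
    obtain ⟨s, hs, hsL⟩ : ∃ s ∈ Icc (f^[n] u) c, f s = L :=
      intermediate_value_Icc h1.le (h.cont.mono (Icc_subset_Icc huI.1 hc1.le)) ⟨hL1.le, hL3.le⟩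
    obtain ⟨t, ht, htL⟩ : ∃ t ∈ Icc c (f^[n] v), f t = L :=
      intermediate_value_Icc' h2.le (h.cont.mono (Icc_subset_Icc hc0.le hvI.2)) ⟨hL2.le, hL3.le⟩
    have hst : s ≠ t := by
      intro h5
      have : s = c := le_antisymm hs.2 (h5 ▸ ht.1)
      rw [this] at hsL
      linarith
    have hconn : IsPreconnected (f^[n] '' (Icc x y)) :=
      isPreconnected_Icc.image _ ((h.iter_cont n).mono hsub)
    have hord := hconn.ordConnected
    have hsm : s ∈ f^[n] '' (Icc x y) := hord.out ⟨u, hu, rfl⟩ ⟨v, hv, rfl⟩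
      ⟨hs.1, hs.2.trans h2.le⟩
    have htm : t ∈ f^[n] '' (Icc x y) := hord.out ⟨u, hu, rfl⟩ ⟨v, hv, rfl⟩
      ⟨h1.le.trans ht.1, ht.2⟩
    obtain ⟨s', hs', hs''⟩ := hsm
    obtain ⟨t', ht', ht''⟩ := htm
    have := hcon (n + 1) hs' ht' (by
      rw [Function.iterate_succ_apply', Function.iterate_succ_apply', hs'', ht'', hsL, htL])
    apply hst
    rw [← hs'', ← ht'', this]
  have hgrow : ∀ n : ℕ, l ^ n * |x - y| ≤ |f^[n] x - f^[n] y| := by
    intro n
    induction n with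
    | zero => simp
    | succ n ih =>
      have hxn := h.iter_maps n hxI
      have hyn := h.iter_maps n hyI
      have hxm : x ∈ Icc x y := ⟨le_rfl, hxy.le⟩
      have hym : y ∈ Icc x y := ⟨hxy.le, le_rfl⟩
      have hside : (f^[n] x ∈ Icc 0 c ∧ f^[n] y ∈ Icc 0 c) ∨
          (f^[n] x ∈ Icc c 1 ∧ f^[n] y ∈ Icc c 1) := by
        rcases lt_trichotomy (f^[n] x) c with h1 | h1 | h1
        · left
          exact ⟨⟨hxn.1, h1.le⟩, hyn.1, not_lt.1 fun h2 => aux n x hxm y hym h1 h2⟩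
        · rcases le_total (f^[n] y) c with h2 | h2
          · left; exact ⟨⟨hxn.1, h1.le⟩, hyn.1, h2⟩
          · right; exact ⟨⟨h1.ge, hxn.2⟩, h2, hyn.2⟩
        · right
          exact ⟨⟨h1.le, hxn.2⟩, not_lt.1 fun h2 => aux n y hym x hxm h2 h1, hyn.2⟩
      rw [Function.iterate_succ_apply', Function.iterate_succ_apply', pow_succ]
      have h3 := hexp _ _ hside
      have h4 : l * (l ^ n * |x - y|) ≤ l * |f^[n] x - f^[n] y| :=
        mul_le_mul_of_nonneg_left ih (by linarith)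
      calc l ^ n * l * |x - y| = l * (l ^ n * |x - y|) := by ring
        _ ≤ _ := h4.trans h3
  have hpos : 0 < |x - y| := abs_pos.2 (sub_ne_zero.2 hxy.ne)
  obtain ⟨n, hn⟩ := pow_unbounded_of_one_lt (1 / |x - y|) hl
  have h5 := hgrow n
  have h6 : |f^[n] x - f^[n] y| ≤ 1 := by
    have h7 := h.iter_maps n hxI
    have h8 := h.iter_maps n hyI
    rw [abs_le]
    constructor <;> linarith [h7.1, h7.2, h8.1, h8.2]
  rw [div_lt_iff₀ hpos] at hn
  linarith

end Q93.UM
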