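import Mathlib
import Pool.Agent.Q93.UM.Uni

/-! No longbranched unimodal map without homtervals has minimal homeomorphic dynamics on `ω(c)`. -/

namespace Q93.UM

open Set

theorem periodic_of_back_aux (a : ℕ → Prop) (N M : ℕ)
    (h : ∀ n m, (∀ j, 1 ≤ j → j ≤ N → (a (n + j) ↔ a (m + j))) → (a n ↔ a m)) :
    ∃ p, 1 ≤ p ∧ p ≤ 2 ^ N ∧ ∀ j ≤ M, (a (j + p) ↔ a j) := by
  classical
  let w : Fin (2 ^ N + 1) → (Fin N → Bool) := fun k i => decide (a (M + k + (i + 1)))
  obtain ⟨k, k', hkk, hw⟩ := Fintype.exists_ne_map_eq_of_card_lt w (by simp)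
  wlog hlt : k < k' generalizing k k'
  · exact this k' k hkk.symm hw.symm (lt_of_le_of_ne (not_lt.1 hlt) hkk.symm)
  have hlt' : (k : ℕ) < k' := hlt
  have hk' := k'.isLt
  have hbase : ∀ j, 1 ≤ j → j ≤ N → (a (M + k + j) ↔ a (M + k' + j)) := by
    intro j hj hj'
    have := congrFun hw ⟨j - 1, by omega⟩
    simp only [w, decide_eq_decide] at this
    rw [show j - 1 + 1 = j by omega] at this
    exact this
  have hdown : ∀ d, d ≤ M + k → (a (M + k - d) ↔ a (M + k' - d)) := by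
    intro d
    induction d using Nat.strong_induction_on with
    | _ d ih =>
      intro hd
      apply h
      intro j hj hj'
      rcases le_or_gt j d with h1 | h1
      · have := ih (d - j) (by omega) (by omega)
        rw [show M + k - d + j = M + k - (d - j) by omega,
          show M + k' - d + j = M + k' - (d - j) by omega]
        exact this
      · have := hbase (j - d) (by omega) (by omega)
        rw [show M + k - d + j = M + k + (j - d) by omega,
          show M + k' - d + j = M + k' + (j - d) by omega]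
        exact this
  refine ⟨k' - k, by omega, by omega, fun j hj => ?_⟩
  have := hdown (M + k - j) (by omega)
  rw [show M + k - (M + k - j) = j by omega,
    show M + k' - (M + k - j) = j + (k' - k) by omega] at this
  exact this.symm

theorem periodic_of_back (a : ℕ → Prop) (N : ℕ)
    (h : ∀ n m, (∀ j, 1 ≤ j → j ≤ N → (a (n + j) ↔ a (m + j))) → (a n ↔ a m)) :
    ∃ p, 1 ≤ p ∧ ∀ j, (a (j + p) ↔ a j) := by
  classical
  choose p hp1 hp2 hp3 using fun M => periodic_of_back_aux a N M h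
  let q : ℕ → Fin (2 ^ N + 1) := fun M => ⟨p M, by have := hp2 M; omega⟩
  obtain ⟨y, hy⟩ := Finite.exists_infinite_fiber q
  have hinf : (q ⁻¹' {y}).Infinite := Set.infinite_coe_iff.1 hy
  obtain ⟨M0, hM0, _⟩ := hinf.exists_gt 0
  refine ⟨y, ?_, fun j => ?_⟩
  · have : (q M0 : ℕ) = y := congrArg Fin.val hM0
    rw [← this]
    exact hp1 M0
  · obtain ⟨M, hM, hM'⟩ := hinf.exists_gt j
    have : (q M : ℕ) = y := congrArg Fin.val hM
    rw [← this]
    exact hp3 M j hM'.le

/-- A positively expansive injective map (with respect to a clopen partition) has only periodic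
points. -/
theorem expansive {f : ℝ → ℝ} {K : Set ℝ} {σ : ℝ → Prop} (hK : IsCompact K)
    (hf : ContinuousOn f K) (hmaps : MapsTo f K K) (hinj : InjOn f K)
    (h1 : IsClosed {y | y ∈ K ∧ σ y}) (h0 : IsClosed {y | y ∈ K ∧ ¬ σ y})
    (hsep : ∀ x ∈ K, ∀ y ∈ K, x ≠ y → ∃ j : ℕ, ¬ (σ (f^[j] x) ↔ σ (f^[j] y)))
    {x : ℝ} (hx : x ∈ K) : ∃ p, 1 ≤ p ∧ f^[p] x = x := by
  have hcont : ∀ n : ℕ, ContinuousOn f^[n] K := by
    intro n
    induction n with
    | zero => exact continuousOn_id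
    | succ n ih =>
      rw [Function.iterate_succ']
      exact hf.comp ih (hmaps.iterate n)
  -- claim 1
  have hN : ∃ N : ℕ, ∀ x ∈ K, ∀ y ∈ K, σ x → ¬ σ y →
      ∃ j, 1 ≤ j ∧ j ≤ N ∧ ¬ (σ (f^[j] x) ↔ σ (f^[j] y)) := by
    by_contra hcon
    push Not at hcon
    set K1 := {y | y ∈ K ∧ σ y}
    set K0 := {y | y ∈ K ∧ ¬ σ y}
    let E1 : ℕ → Set ℝ := fun i => K ∩ f^[i] ⁻¹' K1
    let E0 : ℕ → Set ℝ := fun i => K ∩ f^[i] ⁻¹' K0
    have hE1 : ∀ i, IsClosed (E1 i) := fun i =>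
      (hcont i).preimage_isClosed_of_isClosed hK.isClosed h1
    have hE0 : ∀ i, IsClosed (E0 i) := fun i =>
      (hcont i).preimage_isClosed_of_isClosed hK.isClosed h0
    let C : ℕ → Set (ℝ × ℝ) := fun N => (K1 ×ˢ K0) ∩
      ⋂ j ∈ Icc 1 N, ((E1 j ×ˢ E1 j) ∪ (E0 j ×ˢ E0 j))
    have hclosed : ∀ N, IsClosed (C N) := fun N =>
      (h1.prod h0).inter (isClosed_biInter fun j _ =>
        ((hE1 j).prod (hE1 j)).union ((hE0 j).prod (hE0 j)))
    have hC0 : IsCompact (C 0) :=
      (hK.prod hK).of_isClosed_subset (hclosed 0)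
        (fun p hp => ⟨hp.1.1.1, hp.1.2.1⟩)
    have hne : ∀ N, (C N).Nonempty := by
      intro N
      obtain ⟨x, hx, y, hy, hsx, hsy, hj⟩ := hcon N
      refine ⟨(x, y), ⟨⟨hx, hsx⟩, ⟨hy, hsy⟩⟩, ?_⟩
      rw [mem_iInter₂]
      intro j hj'
      have h3 := hj j hj'.1 hj'.2
      have hxj := hmaps.iterate j hx
      have hyj := hmaps.iterate j hy
      by_cases h4 : σ (f^[j] x)
      · exact Or.inl ⟨⟨hx, hxj, h4⟩, ⟨hy, hyj, h3.1 h4⟩⟩
      · exact Or.inr ⟨⟨hx, hxj, h4⟩, ⟨hy, hyj, fun h5 => h4 (h3.2 h5)⟩⟩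
    have hmono : ∀ N, C (N + 1) ⊆ C N := by
      intro N p hp
      refine ⟨hp.1, ?_⟩
      have h5 := hp.2
      rw [mem_iInter₂] at h5 ⊢
      intro j hj
      exact h5 j ⟨hj.1, hj.2.trans (Nat.le_succ N)⟩
    obtain ⟨p, hp⟩ := IsCompact.nonempty_iInter_of_sequence_nonempty_isCompact_isClosed C
      hmono hne hC0 hclosed
    rw [mem_iInter] at hp
    have hp0 := (hp 0).1
    have hxy : p.1 ≠ p.2 := by
      intro h5
      have h6 : σ p.1 := hp0.1.2
      rw [h5] at h6
      exact hp0.2.2 h6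
    have hfxy : f p.1 ≠ f p.2 := fun h5 => hxy (hinj hp0.1.1 hp0.2.1 h5)
    obtain ⟨j, hj⟩ := hsep _ (hmaps hp0.1.1) _ (hmaps hp0.2.1) hfxy
    rw [← Function.iterate_succ_apply, ← Function.iterate_succ_apply] at hj
    have h7 := (hp (j + 1)).2
    rw [mem_iInter₂] at h7
    rcases h7 (j + 1) ⟨by omega, le_rfl⟩ with h8 | h8
    · exact hj ⟨fun _ => h8.2.2.2, fun _ => h8.1.2.2⟩
    · exact hj ⟨fun h9 => absurd h9 h8.1.2.2, fun h9 => absurd h9 h8.2.2.2⟩
  obtain ⟨N, hN⟩ := hN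
  obtain ⟨p, hp1, hp⟩ := periodic_of_back (fun n => σ (f^[n] x)) N (by
    intro n m hnm
    have hn := hmaps.iterate n hx
    have hm := hmaps.iterate m hx
    by_contra hcon
    have hcase : (σ (f^[n] x) ∧ ¬ σ (f^[m] x)) ∨ (σ (f^[m] x) ∧ ¬ σ (f^[n] x)) := by tauto
    rcases hcase with h3 | h3
    · obtain ⟨j, hj1, hj2, hj3⟩ := hN _ hn _ hm h3.1 h3.2
      apply hj3
      have := hnm j hj1 hj2
      rwa [add_comm n j, add_comm m j, Function.iterate_add_apply,
        Function.iterate_add_apply] at this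
    · obtain ⟨j, hj1, hj2, hj3⟩ := hN _ hm _ hn h3.1 h3.2
      apply hj3
      have := (hnm j hj1 hj2).symm
      rwa [add_comm n j, add_comm m j, Function.iterate_add_apply,
        Function.iterate_add_apply] at this)
  refine ⟨p, hp1, ?_⟩
  by_contra hne
  obtain ⟨j, hj⟩ := hsep _ (hmaps.iterate p hx) _ hx hne
  apply hj
  rw [← Function.iterate_add_apply]
  exact hp j

/-- The main argument. -/
theorem no_part {f : ℝ → ℝ} {c : ℝ} (h : Unimodal f c) (hrec : InfRecurrent f c)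
    (hlong : LongBranched f c) (hhom : NoHomtervalAt f (omegaSet f c)) :
    ¬ MinimalHomeo f (omegaSet f c) := by
  intro hmin
  set K := omegaSet f c with hKdef
  have hKsub : K ⊆ Icc 0 1 := omegaSet_subset h
  have hK : IsCompact K := isCompact_omegaSet h
  have hcK : c ∈ K := hrec.1
  have hne := hrec.2
  have hmaps : MapsTo f K K := hmin.1.mapsTo
  have hinj : InjOn f K := hmin.1.injOn
  have hsurj : SurjOn f K K := hmin.1.surjOn
  have hcnt : ∀ n : ℕ, ContinuousOn f^[n] K := fun n => (h.iter_cont n).mono hKsub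
  have hcnK : ∀ n : ℕ, f^[n] c ∈ K := fun n => hmaps.iterate n hcK
  -- separation of points
  have hsep : ∀ x ∈ K, ∀ y ∈ K, x ≠ y →
      ∃ j : ℕ, (f^[j] x < c ∧ c < f^[j] y) ∨ (f^[j] y < c ∧ c < f^[j] x) := by
    have aux : ∀ x ∈ K, ∀ y ∈ K, x < y →
        ∃ j : ℕ, (f^[j] x < c ∧ c < f^[j] y) ∨ (f^[j] y < c ∧ c < f^[j] x) := by
      intro x hx y hy hxy
      by_contra hcon
      push Not at hcon
      obtain ⟨n, hn⟩ := hhom x hx y hy hxy
      apply hn
      refine h.hom (hKsub hx) (hKsub hy) hxy (fun m => ?_) n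
      rintro (h1 | h1)
      · exact absurd h1.2 (not_lt.2 ((hcon m).1 h1.1))
      · exact absurd h1.2 (not_lt.2 ((hcon m).2 h1.1))
    intro x hx y hy hxy
    rcases lt_or_gt_of_ne hxy with h1 | h1
    · exact aux x hx y hy h1
    · obtain ⟨j, hj⟩ := aux y hy x hx h1
      exact ⟨j, hj.symm⟩
  -- `c` is accumulated from both sides
  have hleft : ∀ ε > 0, ∃ y ∈ K, c - ε < y ∧ y < c := by
    intro ε hε
    by_contra hcon
    push Not at hcon
    obtain ⟨p, hp1, hp2⟩ := expansive (σ := fun y => c ≤ y) hK (h.cont.mono hKsub) hmaps hinj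
      (hK.isClosed.inter isClosed_Ici)
      (by
        have : {y | y ∈ K ∧ ¬ c ≤ y} = K ∩ Iic (c - ε) := by
          ext y
          constructor
          · rintro ⟨h1, h2⟩
            refine ⟨h1, ?_⟩
            by_contra h3
            exact h2 (hcon y h1 (not_le.1 h3))
          · rintro ⟨h1, h2⟩
            exact ⟨h1, fun h3 => by rw [mem_Iic] at h2; linarith⟩
        rw [this]
        exact hK.isClosed.inter isClosed_Iic)
      (by
        intro x hx y hy hxy
        obtain ⟨j, hj⟩ := hsep x hx y hy hxy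
        refine ⟨j, fun hiff => ?_⟩
        rcases hj with h1 | h1
        · exact absurd (hiff.2 h1.2.le) (not_le.2 h1.1)
        · exact absurd (hiff.1 h1.2.le) (not_le.2 h1.1)) hcK
    exact hne p hp1 hp2
  have hright : ∀ ε > 0, ∃ y ∈ K, c < y ∧ y < c + ε := by
    intro ε hε
    by_contra hcon
    push Not at hcon
    obtain ⟨p, hp1, hp2⟩ := expansive (σ := fun y => c < y) hK (h.cont.mono hKsub) hmaps hinj
      (by
        have : {y | y ∈ K ∧ c < y} = K ∩ Ici (c + ε) := by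
          ext y
          constructor
          · rintro ⟨h1, h2⟩
            exact ⟨h1, hcon y h1 h2⟩
          · rintro ⟨h1, h2⟩
            refine ⟨h1, ?_⟩
            rw [mem_Ici] at h2
            linarith
        rw [this]
        exact hK.isClosed.inter isClosed_Ici)
      (by
        have : {y | y ∈ K ∧ ¬ c < y} = K ∩ Iic c := by
          ext y
          simp [not_lt]
        rw [this]
        exact hK.isClosed.inter isClosed_Iic)
      (by
        intro x hx y hy hxy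
        obtain ⟨j, hj⟩ := hsep x hx y hy hxy
        refine ⟨j, fun hiff => ?_⟩
        rcases hj with h1 | h1
        · exact absurd (hiff.2 h1.2) (not_lt.2 h1.1.le)
        · exact absurd (hiff.1 h1.2) (not_lt.2 h1.1.le)) hcK
    exact hne p hp1 hp2
  -- bounded gaps
  obtain ⟨S, Q, hS, hQ, N, hN⟩ := hlong
  obtain ⟨B, hB⟩ : ∃ B, ∀ k, S (k + 1) - S k ≤ B := by
    refine ⟨S N, fun k => ?_⟩
    rw [hQ k]
    have hmono : StrictMono S := strictMono_nat_of_lt_succ hS.lt
    exact hmono.monotone (hN (k + 1) (by omega))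
  -- local constancy of the side of `f^[j] y`
  have hloc : ∀ z ∈ K, ∀ j : ℕ, f^[j] z ≠ c → ∃ ε > 0, ∀ y ∈ K, |y - z| < ε →
      (c < f^[j] y ↔ c < f^[j] z) := by
    intro z hz j hj
    have hcz : ContinuousWithinAt f^[j] K z := hcnt j z hz
    rw [Metric.continuousWithinAt_iff] at hcz
    obtain ⟨δ, hδ, h3⟩ := hcz |f^[j] z - c| (abs_pos.2 (sub_ne_zero.2 hj))
    refine ⟨δ, hδ, fun y hy hyz => ?_⟩
    have h4 := h3 hy (by rw [Real.dist_eq]; exact hyz)
    rw [Real.dist_eq] at h4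
    rcases lt_or_gt_of_ne hj with h5 | h5
    · rw [abs_of_neg (by linarith : f^[j] z - c < 0), abs_lt] at h4
      exact ⟨fun h6 => by linarith [h4.2], fun h6 => by linarith⟩
    · rw [abs_of_pos (by linarith : 0 < f^[j] z - c), abs_lt] at h4
      exact ⟨fun _ => h5, fun _ => by linarith [h4.1]⟩
  have hlocs : ∀ z ∈ K, ∀ s : Finset ℕ, (∀ j ∈ s, f^[j] z ≠ c) → ∃ ε > 0, ∀ y ∈ K,
      |y - z| < ε → ∀ j ∈ s, (c < f^[j] y ↔ c < f^[j] z) := by
    intro z hz s
    classical
    induction s using Finset.induction_on with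
    | empty => intro _; exact ⟨1, one_pos, by simp⟩
    | insert a s _ ih =>
      intro hs
      obtain ⟨ε1, he1, h1⟩ := ih (fun j hj => hs j (Finset.mem_insert_of_mem hj))
      obtain ⟨ε2, he2, h2⟩ := hloc z hz a (hs a (Finset.mem_insert_self a s))
      refine ⟨min ε1 ε2, lt_min he1 he2, fun y hy hyz j hj => ?_⟩
      rcases Finset.mem_insert.1 hj with h3 | h3
      · rw [h3]
        exact h2 y hy (hyz.trans_le (min_le_right _ _))
      · exact h1 y hy (hyz.trans_le (min_le_left _ _)) j h3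
  -- neighbourhood of `c` with the symbols of `c`
  obtain ⟨ε1, he1, hU⟩ := hlocs c hcK (Finset.Icc 1 B)
    (fun j hj => hne j (Finset.mem_Icc.1 hj).1)
  -- syndetic returns
  obtain ⟨R, hR⟩ : ∃ R : ℕ, ∀ x ∈ K, ∃ j ≤ R, |f^[j] x - c| < ε1 := by
    by_contra hcon
    push Not at hcon
    let C : ℕ → Set ℝ := fun R => ⋂ j ∈ Iic R, (K ∩ f^[j] ⁻¹' (Metric.ball c ε1)ᶜ)
    have hcl : ∀ R, IsClosed (C R) := fun R => isClosed_biInter fun j _ =>
      (hcnt j).preimage_isClosed_of_isClosed hK.isClosed Metric.isOpen_ball.isClosed_compl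
    have hsubK : ∀ R, C R ⊆ K := by
      intro R y hy
      rw [mem_iInter₂] at hy
      exact (hy 0 (Nat.zero_le R)).1
    obtain ⟨x, hx⟩ := IsCompact.nonempty_iInter_of_sequence_nonempty_isCompact_isClosed C
      (fun R y hy => by
        rw [mem_iInter₂] at hy ⊢
        exact fun j hj => hy j (le_trans hj (Nat.le_succ R)))
      (fun R => by
        obtain ⟨x, hx, hx'⟩ := hcon R
        refine ⟨x, ?_⟩
        rw [mem_iInter₂]
        intro j hj
        refine ⟨hx, ?_⟩
        rw [mem_preimage, mem_compl_iff, Metric.mem_ball, Real.dist_eq, not_lt]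
        exact hx' j hj)
      (hK.of_isClosed_subset (hcl 0) (hsubK 0)) hcl
    rw [mem_iInter] at hx
    have hxK := hsubK 0 (hx 0)
    obtain ⟨n, hn⟩ := hmin.2 x hxK c hcK ε1 he1
    have h3 := hx n
    rw [mem_iInter₂] at h3
    have h4 := (h3 n (le_refl n)).2
    rw [mem_preimage, mem_compl_iff, Metric.mem_ball, Real.dist_eq] at h4
    exact h4 hn
  -- backward orbit returning to the neighbourhood
  obtain ⟨t, ht, z, hzK, hz, hzc⟩ : ∃ t, B < t ∧ ∃ z ∈ K, f^[t] z = c ∧ |z - c| < ε1 := by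
    have hs : SurjOn f^[B + 1 + R] K K := hsurj.iterate _
    obtain ⟨x, hx, hxc⟩ := hs hcK
    obtain ⟨j, hj, hj'⟩ := hR x hx
    refine ⟨B + 1 + R - j, by omega, f^[j] x, hmaps.iterate j hx, ?_, hj'⟩
    rw [← Function.iterate_add_apply, show B + 1 + R - j + j = B + 1 + R by omega, hxc]
  -- sides of the backward orbit
  have hzs : ∀ j ∈ Finset.Ico 1 t, f^[j] z ≠ c := by
    intro j hj hjc
    rw [Finset.mem_Ico] at hj
    apply hne (t - j) (by omega)
    rw [← hjc, ← Function.iterate_add_apply, show t - j + j = t by omega, hz, hjc]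
  obtain ⟨ε2, he2, hV⟩ := hlocs z hzK (Finset.Ico 1 t) hzs
  set ε3 := min ε2 (ε1 - |z - c|) with hε3
  have he3 : 0 < ε3 := lt_min he2 (by linarith)
  -- points of `K` whose `t`-th image is near `c` are near `z`
  obtain ⟨ε4, he4, hW⟩ : ∃ ε > 0, ∀ y ∈ K, |f^[t] y - c| < ε → |y - z| < ε3 := by
    have hcomp : IsCompact (K \ Metric.ball z ε3) := hK.diff Metric.isOpen_ball
    have himg : IsCompact (f^[t] '' (K \ Metric.ball z ε3)) :=
      hcomp.image_of_continuousOn ((hcnt t).mono diff_subset)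
    have hnot : c ∉ f^[t] '' (K \ Metric.ball z ε3) := by
      rintro ⟨y, hy, hyc⟩
      have : y = z := (hinj.iterate hmaps t) hy.1 hzK (by rw [hyc, hz])
      apply hy.2
      rw [this]
      exact Metric.mem_ball_self he3
    obtain ⟨ε, hε, hb⟩ := Metric.isOpen_iff.1 himg.isClosed.isOpen_compl c hnot
    refine ⟨ε, hε, fun y hy hyc => ?_⟩
    by_contra hcon
    have h3 : f^[t] y ∈ Metric.ball c ε := by
      rw [Metric.mem_ball, Real.dist_eq]; exact hyc
    apply hb h3
    refine ⟨y, ⟨hy, ?_⟩, rfl⟩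
    rw [Metric.mem_ball, Real.dist_eq]
    exact hcon
  set ε5 := min ε1 ε4 with hε5
  have he5 : 0 < ε5 := lt_min he1 he4
  -- orbit points near `c` on both sides
  obtain ⟨n, hn, hnc, hnc'⟩ : ∃ n, t < n ∧ |f^[n] c - c| < ε5 ∧ c < f^[n] c := by
    obtain ⟨y, hy, hy1, hy2⟩ := hright ε5 he5
    obtain ⟨n, hn, hn'⟩ := hy (min (y - c) (c + ε5 - y)) (lt_min (by linarith) (by linarith))
      (t + 1)
    rw [lt_min_iff, abs_lt, abs_lt] at hn'
    refine ⟨n, by omega, ?_, by linarith [hn'.1.1]⟩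
    rw [abs_lt]
    constructor <;> linarith [hn'.1.1, hn'.2.2]
  obtain ⟨n', hn2, hnc2, hnc2'⟩ : ∃ n, t < n ∧ |f^[n] c - c| < ε5 ∧ f^[n] c < c := by
    obtain ⟨y, hy, hy1, hy2⟩ := hleft ε5 he5
    obtain ⟨n, hn, hn'⟩ := hy (min (c - y) (y - (c - ε5))) (lt_min (by linarith) (by linarith))
      (t + 1)
    rw [lt_min_iff, abs_lt, abs_lt] at hn'
    refine ⟨n, by omega, ?_, by linarith [hn'.1.2]⟩
    rw [abs_lt]
    constructor <;> linarith [hn'.1.2, hn'.2.1]
  -- transfer to symbols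
  have hsym : ∀ m, t < m → |f^[m] c - c| < ε5 →
      (∀ j, 1 ≤ j → j ≤ B → nu f c (m + j) = nu f c j) ∧
      (∀ s, 1 ≤ s → s < t → (c < f^[m - s] c ↔ c < f^[t - s] z)) ∧
      (∀ j, 1 ≤ j → j ≤ B → nu f c (m - t + j) = nu f c j) := by
    intro m hm hmc
    have hy := hW (f^[m - t] c) (hcnK _) (by
      rw [← Function.iterate_add_apply, show t + (m - t) = m by omega]
      exact hmc.trans_le (min_le_right _ _))
    refine ⟨fun j hj hj' => ?_, fun s hs hs' => ?_, fun j hj hj' => ?_⟩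
    · rw [Unimodal.nu_eq_iff, add_comm, Function.iterate_add_apply]
      exact hU _ (hcnK m) (hmc.trans_le (min_le_left _ _)) j (Finset.mem_Icc.2 ⟨hj, hj'⟩)
    · have := hV _ (hcnK (m - t)) (hy.trans_le (min_le_left _ _)) (t - s)
        (Finset.mem_Ico.2 ⟨by omega, by omega⟩)
      rwa [← Function.iterate_add_apply, show t - s + (m - t) = m - s by omega] at this
    · rw [Unimodal.nu_eq_iff, add_comm, Function.iterate_add_apply]
      refine hU _ (hcnK _) ?_ j (Finset.mem_Icc.2 ⟨hj, hj'⟩)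
      have h5 : f^[m - t] c - c = (f^[m - t] c - z) + (z - c) := by ring
      rw [h5]
      have h6 := abs_add_le (f^[m - t] c - z) (z - c)
      have h7 := hy.trans_le (min_le_right ε2 (ε1 - |z - c|))
      linarith
  obtain ⟨a1, a2, a3⟩ := hsym n hn hnc
  obtain ⟨b1, b2, b3⟩ := hsym n' hn2 hnc2
  refine hS.comb Unimodal.nu_cases h.nu_one (h.adm hne) hB ht hn hn2 ?_ ?_ a1 b1 a3
  · rw [Ne, Unimodal.nu_eq_iff]
    intro h5
    exact absurd (h5.1 hnc') (not_lt.2 hnc2'.le)
  · intro s hs hs'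
    rw [Unimodal.nu_eq_iff, a2 s hs hs', b2 s hs hs']

end Q93.UM
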